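import Pool.Agent.Lib.MP_069854_nt.RG.RGS

namespace RCX
open MP069854 RGX
open Filter Topology Complex Set MeasureTheory Matrix
open scoped ComplexConjugate ContDiff

variable {k m : ℕ}

/-- `Q_k(z,T)` for complex `z` -/
noncomputable def QC (k : ℕ) (z : ℂ) (T : ℝ) : ℂ :=
  ((T * Real.log T ^ (k ^ 2) : ℝ) : ℂ)⁻¹ *
    ∫ t in (0:ℝ)..T, riemannZeta (1/2 + I * z / Real.log T + I * t) ^ k *
      riemannZeta (1/2 + I * z / Real.log T - I * t) ^ k

theorem QC_real (k : ℕ) (α T : ℝ) : QC k (α : ℂ) T = Qk k α T := rfl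

theorem QC_eq (k : ℕ) (z : ℂ) (T : ℝ) : QC k z T = ((T * Real.log T ^ (k ^ 2) : ℝ) : ℂ)⁻¹ *
    ∫ t in (0:ℝ)..T, Z k t (1/2 + I * z / Real.log T) := by
  unfold QC Z
  congr 1
  refine intervalIntegral.integral_congr fun t _ => ?_
  rw [mul_comm I (t : ℂ)]

theorem QC_zero (k : ℕ) (T : ℝ) : QC k 0 T = ((Jn k T : ℝ) : ℂ) := by
  have h := QC_real k 0 T
  rw [ofReal_zero] at h
  rw [h, Jn_Q]

/-- the plateau function with complex phase -/
noncomputable def gc (k : ℕ) (z : ℂ) (u : ℝ) : ℂ := exp (-(I * z * u)) * g00 k u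

theorem gc_TF (k : ℕ) (z : ℂ) : TF (gc k z) (-1) (2 * k + 1) := by
  refine ⟨?_, ?_⟩
  · unfold gc
    refine ContDiff.mul ?_ (g00_TF k).smooth
    have h1 : ContDiff ℝ ∞ fun u : ℝ => (-(I * z * (u : ℂ))) := by
      have : ContDiff ℝ ∞ fun u : ℝ => (u : ℂ) := Complex.ofRealCLM.contDiff
      exact (contDiff_const.mul this).neg
    exact h1.cexp
  · refine (closure_minimal ?_ (isClosed_tsupport (g00 k))).trans (g00_TF k).supp
    intro u hu
    exact subset_tsupport _ (right_ne_zero_of_mul (show exp (-(I * z * u)) * g00 k u ≠ 0 from hu))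

theorem G_gc (k : ℕ) (z w : ℂ) : G (gc k z) w = G (g00 k) (w - I * z) := by
  unfold G gc
  refine integral_congr_ae (Eventually.of_forall fun u => ?_)
  simp only
  have : exp ((u : ℂ) * (w - I * z)) = exp (-(I * z * u)) * exp ((u : ℂ) * w) := by
    rw [← exp_add]; congr 1; ring
  rw [this]; ring

theorem gc_real (k : ℕ) (α : ℝ) : gc k (α : ℂ) = gal k α := by
  funext u
  unfold gc gal
  congr 2; ring

/-- exponential sum with complex frequencies -/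
noncomputable def PC (x c : Fin m → ℂ) (u : ℝ) : ℂ := ∑ j, c j * exp (-(I * x j * u))

theorem PC_smooth (x c : Fin m → ℂ) : ContDiff ℝ ∞ (PC x c) := by
  unfold PC
  have h1 : ContDiff ℝ ∞ fun u : ℝ => (u : ℂ) := Complex.ofRealCLM.contDiff
  refine ContDiff.sum fun j _ => contDiff_const.mul ?_
  exact ((contDiff_const.mul h1).neg).cexp

theorem PC_cont (x c : Fin m → ℂ) : Continuous (PC x c) := (PC_smooth x c).continuous

/-- `⟨g, Q⟩(T)` -/
noncomputable def QP (k : ℕ) (g : ℝ → ℂ) (T : ℝ) : ℂ :=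
  (2 * Real.pi : ℂ)⁻¹ * ∫ α : ℝ, G g (α * I) * Qk k α T

/-- determining sets of complex shifts -/
def DC (k : ℕ) (J : Set ℂ) : Prop :=
  ∀ (y : ℂ) (ε : ℝ), 0 < ε → ∃ (m : ℕ) (x c : Fin m → ℂ), (∀ j, x j ∈ J) ∧
    ∀ u : ℝ, 2 ≤ u → u ≤ 2 * (k:ℝ) - 2 → ‖exp (-(I * y * u)) - PC x c u‖ ≤ ε

/-- the symmetric set -/
def syC (J : Set ℂ) : Set ℂ := {x | x ∈ J ∨ -conj x ∈ J}

section
variable {N : ℕ} [MeasurableSpace (unitaryGroup (Fin N) ℂ)] (μ : Measure (unitaryGroup (Fin N) ℂ))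

/-- `W_k(z,N)` for complex `z` -/
noncomputable def WC (k : ℕ) (z : ℂ) : ℂ :=
  ((N : ℂ) ^ (k ^ 2))⁻¹ * ∫ U : unitaryGroup (Fin N) ℂ,
    det (1 - Complex.exp (-Complex.I * z / N) • (U : Matrix (Fin N) (Fin N) ℂ)) ^ k *
    det (1 - Complex.exp (-Complex.I * z / N) • star (U : Matrix (Fin N) (Fin N) ℂ)) ^ k ∂μ

theorem WC_real (k : ℕ) (α : ℝ) : WC μ k (α : ℂ) = Wk μ k α := rfl

end

end RCX
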