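import Pool.Agent.Lib.MP_069854_nt.RC.C0

namespace RCX
open MP069854 RGX
open Filter Topology Complex Set MeasureTheory Matrix
open scoped ComplexConjugate ContDiff

variable {k m : ℕ}

/-- **Row c-1.** Decay of the transform in the whole plane. Proof: `hg.decay M` (the case
`0 ≤ Re w`, Part03/Part05; see the proof of `TF.decay_strip` in Part06 line 1795 for the exact use)
and `hg.refl.decay M` with `TF.G_refl` for `Re w ≤ 0`. -/
theorem decay_all {g : ℝ → ℂ} {A B : ℝ} (hg : TF g A B) (M : ℕ) : ∃ C : ℝ, 0 ≤ C ∧ ∀ w : ℂ,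
    ‖G g w‖ * (1 + |w.im|) ^ M ≤ C * Real.exp (max |A| |B| * |w.re|) := by
  obtain ⟨C1, hC1, h1⟩ := hg.decay M
  obtain ⟨C2, hC2, h2⟩ := hg.refl.decay M
  refine ⟨C1 + C2, add_nonneg hC1 hC2, ?_⟩
  intro w
  rcases le_total 0 w.re with hr | hr
  · have h3 := h1 w.re w.im hr
    rw [re_add_im] at h3
    have h4 : B * w.re ≤ max |A| |B| * |w.re| := by
      rw [abs_of_nonneg hr]
      exact mul_le_mul_of_nonneg_right ((le_abs_self B).trans (le_max_right _ _)) hr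
    calc ‖G g w‖ * (1 + |w.im|) ^ M ≤ C1 * Real.exp (B * w.re) := h3
      _ ≤ (C1 + C2) * Real.exp (max |A| |B| * |w.re|) :=
          mul_le_mul (by linarith) (Real.exp_le_exp.2 h4) (Real.exp_pos _).le (add_nonneg hC1 hC2)
  · have h3 := h2 (-w.re) (-w.im) (by linarith only [hr])
    have e : ((-w.re : ℝ) : ℂ) + ((-w.im : ℝ) : ℂ) * I = -w := by
      apply Complex.ext <;> simp
    rw [e, TF.G_refl, neg_neg, abs_neg] at h3
    have h4 : -A * -w.re ≤ max |A| |B| * |w.re| := by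
      rw [abs_of_nonpos hr]
      exact mul_le_mul_of_nonneg_right ((neg_le_abs A).trans (le_max_left _ _))
        (by linarith only [hr])
    calc ‖G g w‖ * (1 + |w.im|) ^ M ≤ C2 * Real.exp (-A * -w.re) := h3
      _ ≤ (C1 + C2) * Real.exp (max |A| |B| * |w.re|) :=
          mul_le_mul (by linarith) (Real.exp_le_exp.2 h4) (Real.exp_pos _).le (add_nonneg hC1 hC2)

/-- **Row c-1.** Crude bound for the inner integral with complex phase. Proof:
`JJ = ∫ G (gc k z) (α I) * 1 * Z k t (1/2 + (α/L) I) dα`, `G (gc k z) (α I) = G (g00 k) (α I - I z)`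
(`G_gc`), real part `z.im`, imaginary part `α - z.re`; `decay_all (g00_TF k) (2*k+2)` gives
`≤ C exp((2k+1)|z.im|) / (1 + |α - z.re|)^(2k+2)`; `Z_crit k` (see how `JJ_bound`, Part05 line 692,
uses it) gives `‖Z‖ ≤ C (2 + |α/L| + t)^(2k)`, `|α/L| ≤ |α| ≤ |α - z.re| + ‖z‖`, so
`(2+|α/L|+t) ≤ (2+t)(1+‖z‖)(1+|α - z.re|)`. The integral of `1/(1+(α - z.re)^2)` is `π`
(`integral_sub_right_eq_self`, `integral_univ_inv_one_add_sq`). -/
theorem JC_bound (k : ℕ) : ∃ C : ℝ, 0 ≤ C ∧ ∀ (z : ℂ) (L t : ℝ), 1 ≤ L → 0 ≤ t →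
    ‖JJ k (gc k z) (fun _ _ => (1:ℂ)) L t‖ ≤
      C * Real.exp ((2 * k + 1) * |z.im|) * (1 + ‖z‖) ^ (2 * k) * (2 + t) ^ (2 * k) := by
  obtain ⟨C1, hC1, h1⟩ := decay_all (g00_TF k) (2 + 2 * k)
  obtain ⟨C2, hC2, h2⟩ := Z_crit k
  have hC20 : 0 ≤ C2 := by linarith only [hC2]
  refine ⟨C1 * C2 * Real.pi, by positivity, ?_⟩
  intro z L t hL ht
  have hmax : max |(-1 : ℝ)| |(2 * (k : ℝ) + 1)| = 2 * k + 1 := by
    rw [abs_neg, abs_one, abs_of_nonneg (by positivity), max_eq_right]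
    have : (0 : ℝ) ≤ k := Nat.cast_nonneg k
    linarith only [this]
  set E := Real.exp ((2 * k + 1) * |z.im|) with hE
  have hE0 : 0 < E := Real.exp_pos _
  set K0 : ℝ := C1 * C2 * E * (1 + ‖z‖) ^ (2 * k) * (2 + t) ^ (2 * k) with hK0
  have hfin : C1 * C2 * Real.pi * E * (1 + ‖z‖) ^ (2 * k) * (2 + t) ^ (2 * k) =
      ∫ y : ℝ, K0 * (1 + (y - z.re) ^ 2)⁻¹ := by
    rw [integral_const_mul, integral_sub_right_eq_self (fun y : ℝ => (1 + y ^ 2)⁻¹) z.re,
      integral_univ_inv_one_add_sq, hK0]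
    ring
  rw [hfin]
  unfold JJ
  refine norm_integral_le_of_norm_le ((integrable_inv_one_add_sq.comp_sub_right z.re).const_mul _)
    (Eventually.of_forall fun y => ?_)
  rw [G_gc]
  have e1 := h1 ((y : ℂ) * I - I * z)
  have ere : ((y : ℂ) * I - I * z).re = z.im := by simp
  have eim : ((y : ℂ) * I - I * z).im = y - z.re := by simp
  rw [ere, eim, hmax, ← hE] at e1
  have e3 := h2 t (y / L) ht
  have hyL : |y / L| ≤ |y| := by
    rw [abs_div, abs_of_pos (by linarith only [hL] : (0:ℝ) < L)]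
    exact div_le_self (abs_nonneg y) hL
  have hy2 : |y| ≤ |y - z.re| + ‖z‖ := by
    have h5 : |y| ≤ |y - z.re| + |z.re| := by
      have := abs_add_le (y - z.re) z.re
      rwa [sub_add_cancel] at this
    exact h5.trans (by linarith only [Complex.abs_re_le_norm z])
  have e4 : (2 + |y / L| + t) ^ (2 * k) ≤
      (2 + t) ^ (2 * k) * (1 + ‖z‖) ^ (2 * k) * (1 + |y - z.re|) ^ (2 * k) := by
    rw [← mul_pow, ← mul_pow]
    apply pow_le_pow_left₀ (by positivity)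
    have h6 : 0 ≤ ‖z‖ := norm_nonneg z
    have h7 : 0 ≤ |y - z.re| := abs_nonneg _
    have h8 : 0 ≤ ‖z‖ * |y - z.re| := mul_nonneg h6 h7
    nlinarith only [hyL, hy2, h6, h7, h8, ht, mul_nonneg ht h6, mul_nonneg ht h7, mul_nonneg ht h8]
  rw [norm_mul, norm_mul, norm_one, mul_one, ← div_eq_mul_inv, le_div_iff₀ (by positivity)]
  have e7 : 1 + (y - z.re) ^ 2 ≤ (1 + |y - z.re|) ^ 2 := by
    nlinarith only [abs_nonneg (y - z.re), sq_abs (y - z.re)]
  set N1 := ‖G (g00 k) ((y : ℂ) * I - I * z)‖ with hN1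
  calc N1 * ‖Z k t (1/2 + (y / L : ℝ) * I)‖ * (1 + (y - z.re) ^ 2)
      ≤ N1 * (C2 * ((2 + t) ^ (2 * k) * (1 + ‖z‖) ^ (2 * k) * (1 + |y - z.re|) ^ (2 * k))) *
          (1 + |y - z.re|) ^ 2 := by
        gcongr
        exact e3.trans (mul_le_mul_of_nonneg_left e4 hC20)
    _ = (N1 * (1 + |y - z.re|) ^ (2 + 2 * k)) * (C2 * ((2 + t) ^ (2 * k) * (1 + ‖z‖) ^ (2 * k))) := by
        ring
    _ ≤ (C1 * E) * (C2 * ((2 + t) ^ (2 * k) * (1 + ‖z‖) ^ (2 * k))) :=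
        mul_le_mul_of_nonneg_right e1 (by positivity)
    _ = K0 := by rw [hK0]; ring

end RCX
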