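import Pool.Agent.Lib.MP_069854_nt.RC.C9

namespace RCX
open MP069854 RGX
open Filter Topology Complex Set MeasureTheory Matrix
open scoped ComplexConjugate ContDiff

variable {k m : ℕ}

/-- **Row c-10.** Copy of `RGX.bdd_of_conv` (RGF). -/
theorem bdd_of_conv' (hk : 1 ≤ k) {J : Set ℂ} (hD : DC k J)
    (hJ : ∀ x ∈ J, ∃ z : ℂ, Tendsto (fun T => QC k x T) atTop (𝓝 z)) :
    ∃ B : ℝ, 0 ≤ B ∧ ∀ᶠ T : ℝ in atTop, Jn k T ≤ B := by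
  obtain ⟨B, hB⟩ := (bdd_iff' hk hD).2 fun x hx => by
    obtain ⟨z, hz⟩ := hJ x hx
    exact ⟨‖z‖ + 1, (hz.norm.eventually (gt_mem_nhds (lt_add_one _))).mono fun T hT => hT.le⟩
  exact ⟨|B|, abs_nonneg B, hB.mono fun T hT => hT.trans (le_abs_self B)⟩

/-- **Row c-10.** Copy of `RGX.Jn_conv` (`QC_zero` for `Jn_Q`). -/
theorem Jn_conv' (hk : 1 ≤ k) {J : Set ℂ} (hD : DC k J)
    (hJ : ∀ x ∈ J, ∃ z : ℂ, Tendsto (fun T => QC k x T) atTop (𝓝 z)) :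
    ∃ q : ℝ, Tendsto (Jn k) atTop (𝓝 q) := by
  obtain ⟨B, hB0, hB⟩ := bdd_of_conv' hk hD hJ
  have := gf_neBot hB
  obtain ⟨z, hz⟩ := conv_l' hk (gf_le k) (gf_Eg k) hB0 (gf_le k hB) hD
    (fun x hx => (hJ x hx).imp fun z hz => hz.mono_left (gf_le k)) 0
  refine ⟨z.re, gf_to_top hB ?_⟩
  refine ((Complex.continuous_re.tendsto _).comp hz).congr fun T => ?_
  simp only [Function.comp, QC_zero, ofReal_re]

/-- **Row c-10.** Copy of `RGX.conv_all`. -/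
theorem conv_all' (hk : 1 ≤ k) {J : Set ℂ} (hD : DC k J)
    (hJ : ∀ x ∈ J, ∃ z : ℂ, Tendsto (fun T => QC k x T) atTop (𝓝 z)) (y : ℂ) :
    ∃ z : ℂ, Tendsto (fun T => QC k y T) atTop (𝓝 z) := by
  obtain ⟨B, hB0, hB⟩ := bdd_of_conv' hk hD hJ
  obtain ⟨q, hq⟩ := Jn_conv' hk hD hJ
  exact conv_l' hk le_rfl (Eg_zero hq) hB0 hB hD hJ y

end RCX
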