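import Pool.Agent.Lib.MP_069854_nt.RC.C0

namespace RCX
open MP069854 RGX
open Filter Topology Complex Set MeasureTheory Matrix
open scoped ComplexConjugate ContDiff

variable {k m : ℕ}

section
variable {N : ℕ} [MeasurableSpace (unitaryGroup (Fin N) ℂ)] [BorelSpace (unitaryGroup (Fin N) ℂ)]
  (μ : Measure (unitaryGroup (Fin N) ℂ)) [IsProbabilityMeasure μ] [μ.IsHaarMeasure]

theorem c11a_eq (k : ℕ) (y : ℂ) : WC μ k y = ((N : ℂ) ^ (k ^ 2))⁻¹ *
    ∑ j ∈ Finset.range (k * N + 1), mm μ k j j * exp (-(I * y * ((2 * j / N : ℝ) : ℂ))) := by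
  unfold WC
  congr 1
  set z := Complex.exp (-Complex.I * y / N) with hz
  have h1 : ∀ U : unitaryGroup (Fin N) ℂ, det (1 - z • (U : Matrix (Fin N) (Fin N) ℂ)) ^ k *
      det (1 - z • star (U : Matrix (Fin N) (Fin N) ℂ)) ^ k =
      ∑ j ∈ Finset.range (k * N + 1), ∑ l ∈ Finset.range (k * N + 1), z ^ j * z ^ l *
        (aj k (U : Matrix (Fin N) (Fin N) ℂ) j * conj (aj k (U : Matrix (Fin N) (Fin N) ℂ) l)) := by
    intro U
    rw [det_pow_eq, det_star_pow_eq, Finset.sum_mul_sum]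
    refine Finset.sum_congr rfl fun j _ => Finset.sum_congr rfl fun l _ => ?_
    ring
  simp_rw [h1]
  rw [integral_finsetSum _ fun j _ => integrable_finsetSum _ fun l _ => (aj_int μ k j l).const_mul _]
  refine Finset.sum_congr rfl fun j hj => ?_
  rw [integral_finsetSum _ fun l _ => (aj_int μ k j l).const_mul _, Finset.sum_eq_single j]
  · rw [integral_const_mul]
    have h2 : z ^ j * z ^ j = exp (-(I * y * ((2 * j / N : ℝ) : ℂ))) := by
      rw [hz, ← Complex.exp_nat_mul, ← Complex.exp_add]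
      congr 1
      push_cast; ring
    rw [h2, mul_comm]; rfl
  · intro l _ hl
    rw [integral_const_mul]
    have := mm_orth (k := k) μ (Ne.symm hl)
    unfold mm at this
    rw [this, mul_zero]
  · intro h; exact absurd hj h

end

section
variable [∀ N, MeasurableSpace (unitaryGroup (Fin N) ℂ)] [∀ N, BorelSpace (unitaryGroup (Fin N) ℂ)]
  (μ : ∀ N, Measure (unitaryGroup (Fin N) ℂ)) [∀ N, IsProbabilityMeasure (μ N)]
  [∀ N, (μ N).IsHaarMeasure]

/-- **Row c-11a.** Copy of `Wk_eq` (Part06 line 1095) followed by `Wk_w` (EQB line 236) with a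
complex `z` (the proof of `Wk_eq` never uses that `α` is real: only `w = exp(-I z/N)`,
`w^j * w^j = exp(-(z (2j/N)) I)`). -/
theorem WC_w (k N : ℕ) (z : ℂ) : WC (μ N) k z =
    ∑ j ∈ Finset.range (k * N + 1), (wN μ k j N : ℂ) * exp (-(I * z * ((2 * j / N : ℝ) : ℂ))) := by
  rw [c11a_eq, Finset.mul_sum]
  refine Finset.sum_congr rfl fun j _ => ?_
  rw [mn_eq]
  unfold wN
  push_cast
  ring

/-- **Row c-11b.** Copy of `RGX.W_approx` (RGF line 281) with `WC`, `WC_w`; the integral is over real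
`α`, where `WC = Wk` (`WC_real`), so `Wk_int_w` and `W_dom` apply with `𝒲 ∘ ofReal`. -/
theorem W_approx' (x c : Fin m → ℂ) (y : ℂ) {ε : ℝ} {g : ℝ → ℂ} {A B : ℝ} (tg : TF g A B)
    (hP : ∀ u : ℝ, 0 ≤ u → u ≤ 2 * (k:ℝ) → ‖exp (-(I * y * u)) - PC x c u - g u‖ ≤ ε) {𝒲 : ℂ → ℂ}
    (h𝒲 : ∀ z : ℂ, Tendsto (fun N : ℕ => WC (μ N) k z) atTop (𝓝 (𝒲 z))) :
    ‖𝒲 y - (∑ j, c j * 𝒲 (x j)) - (2 * Real.pi : ℂ)⁻¹ * ∫ α : ℝ, G g (α * I) * 𝒲 α‖ ≤ ε * ‖𝒲 0‖ := by
  have hW' : ∀ α : ℝ, Tendsto (fun N : ℕ => Wk (μ N) k α) atTop (𝓝 ((fun a : ℝ => 𝒲 (a : ℂ)) α)) :=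
    fun α => (h𝒲 (α : ℂ)).congr fun N => WC_real (μ N) k α
  have l1 := (((h𝒲 y).sub (tendsto_finsetSum Finset.univ fun j _ => (h𝒲 (x j)).const_mul (c j))).sub
    (((W_dom μ tg hW').2).const_mul (2 * Real.pi : ℂ)⁻¹)).norm
  have l2 := ((h𝒲 0).norm).const_mul ε
  refine le_of_tendsto_of_tendsto l1 l2 ?_
  filter_upwards [eventually_ge_atTop 1] with N hN
  have hN0 : (0:ℝ) < N := by exact_mod_cast hN
  have h0 : WC (μ N) k 0 = ((∑ j ∈ Finset.range (k * N + 1), wN μ k j N : ℝ) : ℂ) := by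
    rw [WC_w]; simp
  rw [h0, Complex.norm_real, Real.norm_of_nonneg (Finset.sum_nonneg fun j _ => wN_nonneg μ k j N)]
  have e1 : WC (μ N) k y - (∑ j, c j * WC (μ N) k (x j)) -
      (2 * Real.pi : ℂ)⁻¹ * ∫ α : ℝ, G g (α * I) * Wk (μ N) k α =
      ∑ i ∈ Finset.range (k * N + 1), (wN μ k i N : ℂ) *
        (exp (-(I * y * ((2 * i / N : ℝ) : ℂ))) - PC x c (2 * i / N) - g (2 * i / N)) := by
    have e2 : ∑ j, c j * WC (μ N) k (x j) = ∑ i ∈ Finset.range (k * N + 1), (wN μ k i N : ℂ) *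
        PC x c (2 * i / N) := by
      unfold PC
      simp_rw [WC_w, Finset.mul_sum]
      rw [Finset.sum_comm]
      refine Finset.sum_congr rfl fun i _ => Finset.sum_congr rfl fun j _ => ?_
      ring
    rw [e2, Wk_int_w μ tg, WC_w, ← Finset.sum_sub_distrib, ← Finset.sum_sub_distrib]
    refine Finset.sum_congr rfl fun i _ => ?_
    ring
  rw [e1, Finset.mul_sum]
  refine (norm_sum_le _ _).trans (Finset.sum_le_sum fun i hi => ?_)
  rw [norm_mul, Complex.norm_real, Real.norm_of_nonneg (wN_nonneg μ k i N), mul_comm]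
  refine mul_le_mul_of_nonneg_right (hP _ (by positivity) ?_) (wN_nonneg μ k i N)
  rw [Finset.mem_range] at hi
  have hi' : (i:ℝ) ≤ k * N := by
    have : i ≤ k * N := by omega
    exact_mod_cast this
  rw [div_le_iff₀ hN0]
  linarith

/-- **Row c-11b.** Copy of `RGX.W_neg` (RGS). -/
theorem WC_neg {𝒲 : ℂ → ℂ}
    (h𝒲 : ∀ z : ℂ, Tendsto (fun N : ℕ => WC (μ N) k z) atTop (𝓝 (𝒲 z))) (z : ℂ) :
    𝒲 (-conj z) = conj (𝒲 z) := by
  refine tendsto_nhds_unique (h𝒲 (-conj z)) (((Complex.continuous_conj.tendsto _).comp (h𝒲 z)).congr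
    fun N => ?_)
  simp only [Function.comp]
  rw [WC_w, WC_w, map_sum]
  refine Finset.sum_congr rfl fun j _ => ?_
  rw [map_mul, Complex.conj_ofReal, ← Complex.exp_conj]
  congr 2
  rw [map_neg, map_mul, map_mul, Complex.conj_I, Complex.conj_ofReal]
  ring

theorem c11c_bound (k N : ℕ) (z : ℂ) {m : ℕ} (x : Fin m → ℝ) (c : Fin m → ℂ) (ε : ℝ)
    (h : ∀ u : ℝ, 0 ≤ u → u ≤ 2 * (k:ℝ) → ‖exp (-(I * z * u)) - PC (fun j => (x j : ℂ)) c u‖ ≤ ε) :
    ‖WC (μ N) k z - ∑ j, c j * WC (μ N) k (x j : ℂ)‖ ≤ ε * ‖WC (μ N) k 0‖ := by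
  have h0 : WC (μ N) k 0 = ((∑ l ∈ Finset.range (k * N + 1), wN μ k l N : ℝ) : ℂ) := by
    rw [WC_w]
    simp
  have h1 : WC (μ N) k z - ∑ j, c j * WC (μ N) k (x j : ℂ) =
      ∑ l ∈ Finset.range (k * N + 1), (wN μ k l N : ℂ) *
        (exp (-(I * z * ((2 * l / N : ℝ) : ℂ))) - PC (fun j => (x j : ℂ)) c (2 * l / N)) := by
    rw [WC_w μ k N z]
    have e1 : ∀ j, c j * WC (μ N) k (x j : ℂ) = ∑ l ∈ Finset.range (k * N + 1),
        (wN μ k l N : ℂ) * (c j * exp (-(I * (x j : ℂ) * ((2 * l / N : ℝ) : ℂ)))) := by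
      intro j
      rw [WC_w μ k N (x j : ℂ), Finset.mul_sum]
      exact Finset.sum_congr rfl fun l _ => by ring
    rw [Finset.sum_congr rfl fun j _ => e1 j, Finset.sum_comm, ← Finset.sum_sub_distrib]
    refine Finset.sum_congr rfl fun l _ => ?_
    unfold PC
    rw [← Finset.mul_sum, mul_sub]
  rw [h1, h0, Complex.norm_real, Real.norm_of_nonneg (Finset.sum_nonneg fun l _ => wN_nonneg μ k l N),
    Finset.mul_sum]
  refine (norm_sum_le _ _).trans (Finset.sum_le_sum fun l hl => ?_)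
  rw [norm_mul, Complex.norm_real, Real.norm_of_nonneg (wN_nonneg μ k l N), mul_comm]
  refine mul_le_mul_of_nonneg_right (h _ (by positivity) ?_) (wN_nonneg μ k l N)
  have hl' : l ≤ k * N := by
    have := Finset.mem_range.1 hl
    omega
  rcases Nat.eq_zero_or_pos N with h5 | h5
  · rw [h5, Nat.cast_zero, div_zero]
    positivity
  · have h6 : (0:ℝ) < N := by exact_mod_cast h5
    rw [div_le_iff₀ h6]
    have : (l:ℝ) ≤ k * N := by exact_mod_cast hl'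
    linarith

/-- **Row c-11c.** Convergence at real points gives convergence at all complex points. Proof: by
`dense_all` below (with `J = range ofReal`, `a = 0`, `b = 2k`) `e^{-izu}` is within `ε` of
`PC x c` on `[0,2k]` with real `x j`; by `WC_w`, `‖WC z - ∑ c j WC (x j)‖ ≤ ε WC 0` (weights
`wN ≥ 0`, `wN_nonneg`, frequencies `2j/N ∈ [0,2k]`), `WC 0` bounded (convergent): Cauchy
(`cauchySeq_tendsto_of_complete`, `Metric.cauchySeq_iff'`). -/
theorem WC_ext (dense_all : ∀ (y : ℂ) (ε : ℝ), 0 < ε → ∃ (m : ℕ) (x : Fin m → ℝ) (c : Fin m → ℂ),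
      ∀ u : ℝ, 0 ≤ u → u ≤ 2 * (k:ℝ) → ‖exp (-(I * y * u)) - PC (fun j => (x j : ℂ)) c u‖ ≤ ε)
    (h : ∀ α : ℝ, ∃ l : ℂ, Tendsto (fun N : ℕ => WC (μ N) k (α : ℂ)) atTop (𝓝 l)) (z : ℂ) :
    ∃ l : ℂ, Tendsto (fun N : ℕ => WC (μ N) k z) atTop (𝓝 l) := by
  obtain ⟨l₀, hl₀⟩ := h 0
  rw [ofReal_zero] at hl₀
  have hB : ∀ᶠ N : ℕ in atTop, ‖WC (μ N) k 0‖ < ‖l₀‖ + 1 :=
    hl₀.norm.eventually_lt_const (by linarith)
  refine cauchySeq_tendsto_of_complete (Metric.cauchySeq_iff'.2 fun ε hε => ?_)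
  have hp : 0 < ‖l₀‖ + 1 := by positivity
  have hδ : 0 < ε / (4 * (‖l₀‖ + 1)) := by positivity
  obtain ⟨m, x, c, hx⟩ := dense_all z (ε / (4 * (‖l₀‖ + 1))) hδ
  choose L hL using h
  have hS : Tendsto (fun N : ℕ => ∑ j, c j * WC (μ N) k (x j : ℂ)) atTop (𝓝 (∑ j, c j * L (x j))) :=
    tendsto_finsetSum _ fun j _ => (hL (x j)).const_mul (c j)
  have hS' : ∀ᶠ N : ℕ in atTop, dist (∑ j, c j * WC (μ N) k (x j : ℂ)) (∑ j, c j * L (x j)) < ε / 4 :=
    Metric.tendsto_nhds.1 hS (ε / 4) (by positivity)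
  obtain ⟨N₀, hN₀⟩ := eventually_atTop.1 (hB.and hS')
  have key : ∀ N : ℕ, N₀ ≤ N → dist (WC (μ N) k z) (∑ j, c j * L (x j)) < ε / 2 := by
    intro N hN
    obtain ⟨h1, h2⟩ := hN₀ N hN
    have h3 := c11c_bound μ k N z x c _ hx
    have h4 : ε / (4 * (‖l₀‖ + 1)) * ‖WC (μ N) k 0‖ ≤ ε / 4 := by
      have h5 : ε / (4 * (‖l₀‖ + 1)) * (‖l₀‖ + 1) = ε / 4 := by
        field_simp
      rw [← h5]
      exact mul_le_mul_of_nonneg_left h1.le hδ.le
    rw [← dist_eq_norm] at h3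
    calc dist (WC (μ N) k z) (∑ j, c j * L (x j)) ≤
          dist (WC (μ N) k z) (∑ j, c j * WC (μ N) k (x j : ℂ)) +
            dist (∑ j, c j * WC (μ N) k (x j : ℂ)) (∑ j, c j * L (x j)) := dist_triangle _ _ _
      _ < ε / 2 := by linarith
  refine ⟨N₀, fun N hN => ?_⟩
  have h6 := key N hN
  have h7 := key N₀ le_rfl
  calc dist (WC (μ N) k z) (WC (μ N₀) k z) ≤
        dist (WC (μ N) k z) (∑ j, c j * L (x j)) + dist (WC (μ N₀) k z) (∑ j, c j * L (x j)) :=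
          dist_triangle_right _ _ _
    _ < ε := by linarith

end
end RCX
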