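import Pool.Agent.Lib.MP_069854_nt.RC.C10
import Pool.Agent.Lib.MP_069854_nt.RC.C11

namespace RCX
open MP069854 RGX
open Filter Topology Complex Set MeasureTheory Matrix
open scoped ComplexConjugate ContDiff

variable {k m : ℕ}

section
variable [∀ N, MeasurableSpace (unitaryGroup (Fin N) ℂ)] [∀ N, BorelSpace (unitaryGroup (Fin N) ℂ)]
  (μ : ∀ N, Measure (unitaryGroup (Fin N) ℂ)) [∀ N, IsProbabilityMeasure (μ N)]
  [∀ N, (μ N).IsHaarMeasure]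

/-- **Row c-12.** Copy of `RGX.pred_all` (RGF line 325 to the end). -/
theorem pred_all' (hk : 1 ≤ k) {J : Set ℂ} (hJd : DC k J) {𝒲 : ℂ → ℂ}
    (h𝒲 : ∀ z : ℂ, Tendsto (fun N : ℕ => WC (μ N) k z) atTop (𝓝 (𝒲 z)))
    (hJ : ∀ x ∈ J, Tendsto (fun T => QC k x T) atTop (𝓝 (arith k * 𝒲 x))) (y : ℂ) :
    Tendsto (fun T => QC k y T) atTop (𝓝 (arith k * 𝒲 y)) := by
  have hJ' : ∀ x ∈ J, ∃ z : ℂ, Tendsto (fun T => QC k x T) atTop (𝓝 z) := fun x hx => ⟨_, hJ x hx⟩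
  obtain ⟨B, hB0, hB⟩ := bdd_of_conv' hk hJd hJ'
  obtain ⟨q, hq⟩ := Jn_conv' hk hJd hJ'
  obtain ⟨z, hz⟩ := conv_all' hk hJd hJ' y
  suffices h : z = arith k * 𝒲 y by rwa [h] at hz
  have hA : 0 ≤ arith k := (zetaData hk).A_nonneg
  set D : ℝ := (B + 1) + arith k * ‖𝒲 0‖ with hD
  have hD0 : 0 < D := by positivity
  have key : ∀ ε : ℝ, 0 < ε → ‖z - arith k * 𝒲 y‖ ≤ ε * D := by
    intro ε hε
    obtain ⟨m, x, c, g, hx, tg, hs, hP, hT⟩ := approx_l' hk le_rfl (Eg_zero hq) hB hJd y hε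
    obtain ⟨ℓ, -, -, a3, -, a5⟩ := main hk tg.smooth tg.hcs hs μ
    obtain ⟨-, a6⟩ := a5 (fun α : ℝ => 𝒲 (α : ℂ)) (fun α => h𝒲 (α : ℂ))
    have l1 := ((hz.sub (tendsto_finsetSum Finset.univ fun j _ => (hJ (x j) (hx j)).const_mul (c j))).sub
      (a3.const_mul (2 * Real.pi : ℂ)⁻¹)).norm
    have h1 := le_of_tendsto l1 hT
    have h2 := W_approx' μ x c y tg hP h𝒲
    rw [a6] at h2
    set V : ℂ := (∑ j, c j * ((arith k : ℂ) * 𝒲 (x j))) + (2 * Real.pi : ℂ)⁻¹ * (arith k * ℓ) with hV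
    have h3 : ‖V - arith k * 𝒲 y‖ ≤ arith k * (ε * ‖𝒲 0‖) := by
      have e : V - arith k * 𝒲 y =
          -((arith k : ℂ) * (𝒲 y - (∑ j, c j * 𝒲 (x j)) - (2 * Real.pi : ℂ)⁻¹ * ℓ)) := by
        have e2 : ∑ j, c j * ((arith k : ℂ) * 𝒲 (x j)) = (arith k : ℂ) * ∑ j, c j * 𝒲 (x j) := by
          rw [Finset.mul_sum]
          refine Finset.sum_congr rfl fun j _ => ?_
          ring
        rw [hV, e2]; ring
      rw [e, norm_neg, norm_mul, Complex.norm_real, Real.norm_of_nonneg hA]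
      exact mul_le_mul_of_nonneg_left h2 hA
    have h4 : ‖z - arith k * 𝒲 y‖ ≤ ‖z - V‖ + ‖V - arith k * 𝒲 y‖ :=
      norm_sub_le_norm_sub_add_norm_sub _ _ _
    rw [sub_sub] at h1
    rw [hD]
    linarith
  by_contra hne
  have h0 : 0 < ‖z - arith k * 𝒲 y‖ := norm_pos_iff.2 (sub_ne_zero.2 hne)
  have h1 := key (‖z - arith k * 𝒲 y‖ / (2 * D)) (by positivity)
  have h2 : ‖z - arith k * 𝒲 y‖ / (2 * D) * D = ‖z - arith k * 𝒲 y‖ / 2 := by field_simp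
  linarith

end
end RCX
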