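import Pool.Agent.Lib.MP_069854_nt.RC.C0

namespace RCX
open MP069854 RGX
open Filter Topology Complex Set MeasureTheory Matrix
open scoped ComplexConjugate ContDiff

variable {k m : ℕ}

section dense
variable (a b : ℝ)

/-- **Row c-13.** Copy of `RGX.dense_of` (RGN) with complex `J`, `y`, `x`. -/
theorem dense_of' {J : Set ℂ} {y : ℂ}
    (hann : ∀ f : StrongDual ℂ C(Icc a b, ℂ), (∀ x ∈ J, f (ph a b x) = 0) → f (ph a b y) = 0)
    {ε : ℝ} (hε : 0 < ε) :
    ∃ (m : ℕ) (x c : Fin m → ℂ), (∀ j, x j ∈ J) ∧ ∀ u : ℝ, a ≤ u → u ≤ b →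
      ‖exp (-(I * y * u)) - PC x c u‖ ≤ ε := by
  set S : Submodule ℂ C(Icc a b, ℂ) := Submodule.span ℂ ((fun x : ℂ => ph a b x) '' J) with hS
  have hmem : ph a b y ∈ closure (S : Set C(Icc a b, ℂ)) := by
    by_contra hcon
    have hconv : Convex ℝ (closure (S : Set C(Icc a b, ℂ))) := by
      exact (Submodule.convex (S.restrictScalars ℝ)).closure
    obtain ⟨f, u, h1, h2⟩ := RCLike.geometric_hahn_banach_closed_point (𝕜 := ℂ) hconv isClosed_closure hcon
    have hz : ∀ a ∈ S, f a = 0 := by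
      intro a ha
      by_contra hne
      have h3 : ∀ t : ℝ, t * ‖f a‖ ^ 2 < u := by
        intro t
        have h4 := h1 (((t : ℂ) * conj (f a)) • a) (subset_closure (S.smul_mem _ ha))
        rw [map_smul, smul_eq_mul, mul_assoc, mul_comm (conj (f a)), mul_conj, normSq_eq_norm_sq] at h4
        rw [← ofReal_mul] at h4
        exact h4
      have h5 : 0 < ‖f a‖ ^ 2 := by positivity
      have h6 := h3 (u / ‖f a‖ ^ 2)
      rw [div_mul_cancel₀ _ h5.ne'] at h6
      exact lt_irrefl _ h6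
    have hu : 0 < u := by
      have := h1 0 (subset_closure S.zero_mem)
      simpa using this
    have h7 : f (ph a b y) = 0 := hann f fun x hx => hz _ (Submodule.subset_span ⟨x, hx, rfl⟩)
    rw [h7] at h2
    simp at h2
    linarith
  obtain ⟨s, hs, hd⟩ := Metric.mem_closure_iff.1 hmem ε hε
  obtain ⟨m, c, g, hsum⟩ := Submodule.mem_span_set'.1 hs
  choose x hx1 hx2 using fun j => (g j).2
  refine ⟨m, x, c, hx1, fun u hu0 hu6 => ?_⟩
  have h1 : (ph a b y - s) ⟨u, hu0, hu6⟩ = exp (-(I * y * u)) - PC x c u := by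
    rw [ContinuousMap.sub_apply, ph_apply, ← hsum, ContinuousMap.sum_apply]
    unfold PC
    congr 1
    refine Finset.sum_congr rfl fun j _ => ?_
    rw [ContinuousMap.smul_apply, smul_eq_mul, ← hx2 j]
    simp only [ph_apply]
  rw [← h1]
  refine (ContinuousMap.norm_coe_le_norm _ _).trans ?_
  rw [← dist_eq_norm]
  exact hd.le

/-- **Row c-13.** Copy of `RGX.ann_acc` (RGN), complex set. -/
theorem ann_acc' {J : Set ℂ} {p : ℂ} (hp : AccPt p (𝓟 J)) (y : ℂ) (f : StrongDual ℂ C(Icc a b, ℂ))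
    (hf : ∀ x ∈ J, f (ph a b x) = 0) : f (ph a b y) = 0 := by
  have hg : Differentiable ℂ fun z : ℂ => f (ph a b z) := f.differentiable.comp (ph_diff a b)
  have hg0 : (fun z : ℂ => f (ph a b z)) = fun _ => 0 := by
    have ha : AnalyticOnNhd ℂ (fun z : ℂ => f (ph a b z)) univ := fun z _ => hg.analyticAt z
    have hb : AnalyticOnNhd ℂ (fun _ : ℂ => (0:ℂ)) univ := fun z _ => analyticAt_const
    refine AnalyticOnNhd.eq_of_frequently_eq (z₀ := p) ha hb ?_
    rw [accPt_iff_frequently_nhdsNE] at hp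
    exact hp.mono fun x hx => hf x hx
  exact congrFun hg0 y

/-- **Row c-13.** From all real `y` to all complex `y`. Proof: `z ↦ f (ph a b z)` is entire and
vanishes on the reals: `ann_acc'` with `J = range ofReal` (accumulation point 0). -/
theorem ann_real (f : StrongDual ℂ C(Icc a b, ℂ)) (hf : ∀ x : ℝ, f (ph a b (x : ℂ)) = 0) (y : ℂ) :
    f (ph a b y) = 0 := by
  have hacc : AccPt (0 : ℂ) (𝓟 (range ((↑) : ℝ → ℂ))) := by
    rw [accPt_iff_frequently_nhdsNE]
    have ht : Tendsto (fun x : ℝ => (x : ℂ)) (𝓝[≠] (0 : ℝ)) (𝓝[≠] (0 : ℂ)) := by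
      refine tendsto_nhdsWithin_iff.2 ⟨?_, ?_⟩
      · have h1 := (Complex.continuous_ofReal.tendsto (0 : ℝ)).mono_left
          (nhdsWithin_le_nhds (s := {(0 : ℝ)}ᶜ))
        rwa [ofReal_zero] at h1
      · filter_upwards [self_mem_nhdsWithin] with x hx
        simpa using hx
    exact ht.frequently (Eventually.frequently (Eventually.of_forall fun x => ⟨x, rfl⟩))
  refine ann_acc' a b hacc y f ?_
  rintro _ ⟨x, rfl⟩
  exact hf x

end dense

/-- **Row c-13.** Proof: `dense_of'`, `ann_acc'` and `2 ≤ u ≤ 2k-2`. -/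
theorem det_acc' (k : ℕ) {J : Set ℂ} {p : ℂ} (hp : AccPt p (𝓟 J)) : DC k J := fun y _ε hε =>
  dense_of' 2 (2 * (k:ℝ) - 2) (J := J) (y := y) (fun f hf => ann_acc' _ _ hp y f hf) hε

/-- **Row c-13.** Proof: copy of `RGX.det_lat` (RGE): `dense_of'`, `ann_lat` (RGL, for each real
`y`) and `ann_real`. -/
theorem det_lat' (hk : 1 ≤ k) {J : Set ℂ} {d : ℝ} (hd : 0 < d) (hdk : d * ((k:ℝ) - 2) < Real.pi)
    {F : Set ℤ} (hF : F.Finite) (hJ : ∀ n : ℤ, n ∉ F → ((n * d : ℝ) : ℂ) ∈ J) : DC k J := by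
  intro y ε hε
  have hk' : (1:ℝ) ≤ k := by exact_mod_cast hk
  rcases Nat.lt_or_ge k 2 with h2 | h2
  · have hk1 : k = 1 := by omega
    refine ⟨0, fun j => j.elim0, fun j => j.elim0, fun j => j.elim0, fun u h3 h4 => ?_⟩
    rw [hk1] at h4
    norm_num at h4
    linarith
  · have hk2 : (2:ℝ) ≤ k := by exact_mod_cast h2
    refine dense_of' 2 (2 * (k:ℝ) - 2) (J := J) (y := y) (fun f hf => ?_) hε
    refine ann_real _ _ f (fun x => ?_) y
    refine ann_lat hd (by linarith) (by nlinarith) hF.toFinset x f fun n hn => ?_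
    exact hf _ (hJ n (by simpa using hn))

/-- **Row c-13.** Proof: `dense_of'` with `J = range ofReal`, and `ann_real`; choose real
representatives of the `x j`. -/
theorem dense_all (k : ℕ) (y : ℂ) (ε : ℝ) (hε : 0 < ε) : ∃ (m : ℕ) (x : Fin m → ℝ) (c : Fin m → ℂ),
      ∀ u : ℝ, 0 ≤ u → u ≤ 2 * (k:ℝ) → ‖exp (-(I * y * u)) - PC (fun j => (x j : ℂ)) c u‖ ≤ ε := by
  obtain ⟨m, x, c, hx, h⟩ := dense_of' 0 (2 * (k:ℝ)) (J := range ((↑) : ℝ → ℂ)) (y := y)
    (fun f hf => ann_real _ _ f (fun x => hf _ ⟨x, rfl⟩) y) hε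
  choose x' hx' using hx
  refine ⟨m, x', c, fun u h1 h2 => ?_⟩
  have h3 : (fun j => (x' j : ℂ)) = x := funext hx'
  rw [h3]
  exact h u h1 h2

end RCX
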