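import Pool.Agent.Lib.MP_069854_nt.RC.C0

namespace RCX
open MP069854 RGX
open Filter Topology Complex Set MeasureTheory Matrix
open scoped ComplexConjugate ContDiff

variable {k m : ℕ}

/-- **Row c-14.** Moments off the critical line. Proof: `I * (-I * c) = c`;
`ζ(conj s) = conj ζ(s)` (`riemannZeta_conj`), so the integrand is
`(ζ(s) conj ζ(s))^k = ‖ζ(s)‖^(2k)` with `s = 1/2 + c/log T + I t`
(`Complex.mul_conj`, `Complex.normSq_eq_norm_sq`, `intervalIntegral.integral_ofReal`). -/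
theorem QC_off (k : ℕ) (c T : ℝ) : QC k (-(I * c)) T =
    (((T * Real.log T ^ (k ^ 2))⁻¹ *
      ∫ t in (0:ℝ)..T, ‖riemannZeta (1/2 + ((c / Real.log T : ℝ) : ℂ) + I * t)‖ ^ (2 * k) : ℝ) : ℂ) := by
  rw [Complex.ofReal_mul (T * Real.log T ^ (k ^ 2))⁻¹, Complex.ofReal_inv,
    ← intervalIntegral.integral_ofReal, QC]
  congr 1
  refine intervalIntegral.integral_congr fun t _ => ?_
  have h1 : I * (-(I * (c : ℂ))) = c := by
    rw [mul_neg, ← mul_assoc, Complex.I_mul_I]
    ring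
  have h2 : (1/2 + I * (-(I * (c : ℂ))) / (Real.log T : ℂ) - I * (t : ℂ)) =
      conj (1/2 + ((c / Real.log T : ℝ) : ℂ) + I * (t : ℂ)) := by
    rw [h1]
    simp only [map_add, map_mul, map_div₀, map_one, Complex.conj_I, Complex.conj_ofReal,
      Complex.ofReal_div, map_ofNat]
    ring
  have h3 : (1/2 + I * (-(I * (c : ℂ))) / (Real.log T : ℂ) + I * (t : ℂ)) =
      1/2 + ((c / Real.log T : ℝ) : ℂ) + I * (t : ℂ) := by
    rw [h1, Complex.ofReal_div]
  rw [h2, h3, riemannZeta_conj, ← mul_pow, Complex.mul_conj, Complex.normSq_eq_norm_sq,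
    ← Complex.ofReal_pow, ← pow_mul]

/-- **Row c-14.** Proof: conjugate under the integral
(`intervalIntegral.intervalIntegral_conj`, `riemannZeta_conj`): the factor with `+It` at `z`
conjugates to the factor with `-It` at `-conj z`. See `RGX.Q_neg` (RGS) for the real case. -/
theorem QC_neg (k : ℕ) (z : ℂ) (T : ℝ) : QC k (-conj z) T = conj (QC k z T) := by
  rw [QC, QC, map_mul, map_inv₀, Complex.conj_ofReal, ← intervalIntegral.intervalIntegral_conj]
  congr 1
  refine intervalIntegral.integral_congr fun t _ => ?_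
  rw [map_mul, map_pow, map_pow, ← riemannZeta_conj, ← riemannZeta_conj, mul_comm]
  congr 2
  · congr 1
    simp only [map_add, map_mul, map_div₀, map_one, Complex.conj_I, Complex.conj_ofReal, map_ofNat]
    ring
  · congr 1
    simp only [map_sub, map_add, map_mul, map_div₀, map_one, Complex.conj_I, Complex.conj_ofReal,
      map_ofNat]
    ring

/-- **Row c-14.** Copy of `RGX.sy_det`. -/
theorem syC_det {J : Set ℂ} (h : DC k J) : DC k (syC J) := by
  intro y ε hε
  obtain ⟨m, x, c, h1, h2⟩ := h y ε hε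
  exact ⟨m, x, c, fun j => Or.inl (h1 j), h2⟩

/-- **Row c-14.** Copy of `RGX.sy_bdd`. -/
theorem syC_bdd {J : Set ℂ} (h : ∀ x ∈ J, ∃ B : ℝ, ∀ᶠ T : ℝ in atTop, ‖QC k x T‖ ≤ B) :
    ∀ x ∈ syC J, ∃ B : ℝ, ∀ᶠ T : ℝ in atTop, ‖QC k x T‖ ≤ B := by
  intro x hx
  rcases hx with hx | hx
  · exact h x hx
  · obtain ⟨B, hB⟩ := h _ hx
    refine ⟨B, hB.mono fun T hT => ?_⟩
    rwa [QC_neg, Complex.norm_conj] at hT

/-- **Row c-14.** Copy of `RGX.sy_conv`. -/
theorem syC_conv {J : Set ℂ} (h : ∀ x ∈ J, ∃ z : ℂ, Tendsto (fun T => QC k x T) atTop (𝓝 z)) :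
    ∀ x ∈ syC J, ∃ z : ℂ, Tendsto (fun T => QC k x T) atTop (𝓝 z) := by
  intro x hx
  rcases hx with hx | hx
  · exact h x hx
  · obtain ⟨z, hz⟩ := h _ hx
    refine ⟨conj z, ((Complex.continuous_conj.tendsto _).comp hz).congr fun T => ?_⟩
    simp only [Function.comp]
    rw [QC_neg, Complex.conj_conj]

end RCX
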