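import Pool.Agent.Lib.MP_069854_nt.RC.C13

namespace RCX
open MP069854 RGX
open Filter Topology Complex Set MeasureTheory Matrix
open scoped ComplexConjugate ContDiff

variable {k m : ℕ}

theorem c15_mul (a b : ℝ) (z w : ℂ) : ph a b z * ph a b w = ph a b (z + w) := by
  ext u
  rw [ContinuousMap.mul_apply, ph_apply, ph_apply, ph_apply, ← Complex.exp_add]
  congr 1
  ring

theorem c15_pow (a b h : ℝ) (n : ℕ) :
    ph a b (-(I * (h : ℂ))) ^ n = ph a b (-(I * ((n * h : ℝ) : ℂ))) := by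
  ext u
  rw [ContinuousMap.pow_apply, ph_apply, ph_apply, ← Complex.exp_nat_mul]
  congr 1
  push_cast
  ring

theorem c15_eval (a b h : ℝ) (u : Icc a b) :
    ph a b (-(I * (h : ℂ))) u = ((Real.exp (-(h * (u : ℝ))) : ℝ) : ℂ) := by
  rw [ph_apply, Complex.ofReal_exp]
  congr 1
  push_cast
  linear_combination ((h : ℂ) * ((u : ℝ) : ℂ)) * I_mul_I

theorem c15_star (a b h : ℝ) : star (ph a b (-(I * (h : ℂ)))) = ph a b (-(I * (h : ℂ))) := by
  ext u
  rw [ContinuousMap.star_apply, c15_eval]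
  exact Complex.conj_ofReal _

/-- the polynomials in `u ↦ exp (-h u)` -/
noncomputable def c15_A (a b h : ℝ) : StarSubalgebra ℂ C(Icc a b, ℂ) where
  toSubalgebra := Algebra.adjoin ℂ {ph a b (-(I * (h : ℂ)))}
  star_mem' := by
    intro x hx
    change x ∈ Algebra.adjoin ℂ {ph a b (-(I * (h : ℂ)))} at hx
    change star x ∈ Algebra.adjoin ℂ {ph a b (-(I * (h : ℂ)))}
    induction hx using Algebra.adjoin_induction with
    | mem x hx =>
      rw [Set.mem_singleton_iff] at hx
      rw [hx, c15_star]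
      exact Algebra.subset_adjoin (Set.mem_singleton _)
    | algebraMap r =>
      rw [← algebraMap_star_comm]
      exact Subalgebra.algebraMap_mem _ _
    | add x y _ _ hx hy =>
      rw [star_add]
      exact add_mem hx hy
    | mul x y _ _ hx hy =>
      rw [star_mul]
      exact mul_mem hy hx

theorem c15_dense (a b h : ℝ) (h0 : 0 < h) (F : C(Icc a b, ℂ)) :
    F ∈ closure ((c15_A a b h : StarSubalgebra ℂ C(Icc a b, ℂ)) : Set C(Icc a b, ℂ)) := by
  have hs : (c15_A a b h).SeparatesPoints := by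
    intro u v huv
    refine ⟨ph a b (-(I * (h : ℂ))), ⟨ph a b (-(I * (h : ℂ))),
      Algebra.subset_adjoin (Set.mem_singleton _), rfl⟩, ?_⟩
    intro hcon
    apply huv
    rw [c15_eval, c15_eval] at hcon
    have h1 := Real.exp_injective (Complex.ofReal_injective hcon)
    have h2 : (u : ℝ) = v := by
      have h3 : h * (u : ℝ) = h * v := by linarith
      exact mul_left_cancel₀ h0.ne' h3
    exact Subtype.ext h2
  have h1 := ContinuousMap.starSubalgebra_topologicalClosure_eq_top_of_separatesPoints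
    (c15_A a b h) hs
  have h2 : F ∈ (c15_A a b h).topologicalClosure := by
    rw [h1]
    trivial
  exact h2

theorem c15_poly (a b h : ℝ) (f : StrongDual ℂ C(Icc a b, ℂ)) {n₀ : ℕ}
    (hf : ∀ n : ℕ, n₀ ≤ n → f (ph a b (-(I * (h : ℂ))) ^ n) = 0) (x : C(Icc a b, ℂ))
    (hx : x ∈ Algebra.adjoin ℂ {ph a b (-(I * (h : ℂ)))}) :
    f (ph a b (-(I * (h : ℂ))) ^ n₀ * x) = 0 := by
  rw [Algebra.adjoin_singleton_eq_range_aeval, AlgHom.mem_range] at hx
  obtain ⟨p, rfl⟩ := hx
  induction p using Polynomial.induction_on' with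
  | add p q hp hq =>
    rw [map_add, mul_add, map_add, hp, hq, add_zero]
  | monomial n c =>
    rw [Polynomial.aeval_monomial, mul_left_comm, ← pow_add, ← Algebra.smul_def, map_smul,
      hf _ (Nat.le_add_right _ _), smul_zero]

theorem c15_main (a b h : ℝ) (h0 : 0 < h) (f : StrongDual ℂ C(Icc a b, ℂ)) {n₀ : ℕ}
    (hf : ∀ n : ℕ, n₀ ≤ n → f (ph a b (-(I * ((n * h : ℝ) : ℂ)))) = 0) (y : ℂ) :
    f (ph a b y) = 0 := by
  have h1 : ∀ n : ℕ, n₀ ≤ n → f (ph a b (-(I * (h : ℂ))) ^ n) = 0 := by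
    intro n hn
    rw [c15_pow]
    exact hf n hn
  have hcl : IsClosed {F : C(Icc a b, ℂ) | f (ph a b (-(I * (h : ℂ))) ^ n₀ * F) = 0} := by
    refine isClosed_eq ?_ continuous_const
    exact f.continuous.comp (continuous_const.mul continuous_id)
  have h2 : ∀ F : C(Icc a b, ℂ), f (ph a b (-(I * (h : ℂ))) ^ n₀ * F) = 0 := by
    intro F
    exact closure_minimal (fun x hx => c15_poly a b h f h1 x hx) hcl (c15_dense a b h h0 F)
  have h3 := h2 (ph a b (y + I * ((n₀ * h : ℝ) : ℂ)))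
  rw [c15_pow, c15_mul] at h3
  have h4 : -(I * ((n₀ * h : ℝ) : ℂ)) + (y + I * ((n₀ * h : ℝ) : ℂ)) = y := by ring
  rwa [h4] at h3

/-- **Row c-15.** The imaginary progressions `-i n h`, `n ≥ n₀` (moments on the lines
`1/2 + n h / log T`). Proof: `dense_of'` on `[2,2k-2]` (case `k = 1` vacuous as in `det_lat`). Let
`f` be a functional vanishing at `ph (-(I n h))`, `n ≥ n₀`, i.e. at `E^n`, where
`E : C(Icc a b, ℂ) = (u ↦ exp(-h u))` (`ph_apply`: `-(I * (-(I n h)) * u) = -(n h u)`). The closed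
subspace `{F | f (E^n₀ * F) = 0}` contains all powers `E^j` (also `conj E = E`), hence the
star-subalgebra generated by `E`, which is dense by Stone-Weierstrass
(`ContinuousMap.starSubalgebra_topologicalClosure_eq_top_of_separatesPoints`,
`E` is injective), so it is everything; take `F = ph y / E^n₀ = ph (y + I n₀ h)`
(`u ↦ exp(-(I y u) + n₀ h u)`): `f (ph y) = 0`. Alternatively: the polynomials in the variable
`x = exp(-h u)` (`polynomialFunctions_closure_eq_top`). -/
theorem det_imag (hk : 1 ≤ k) {J : Set ℂ} {h : ℝ} (h0 : 0 < h) {n₀ : ℕ}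
    (hJ : ∀ n : ℕ, n₀ ≤ n → -(I * ((n * h : ℝ) : ℂ)) ∈ J) : DC k J := by
  intro y ε hε
  refine dense_of' 2 (2 * (k:ℝ) - 2) (J := J) (y := y) (fun f hf => ?_) hε
  exact c15_main _ _ h h0 f (fun n hn => hf _ (hJ n hn)) y

end RCX
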