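import Pool.Agent.Lib.MP_069854_nt.RC.C1

namespace RCX
open MP069854 RGX
open Filter Topology Complex Set MeasureTheory Matrix
open scoped ComplexConjugate ContDiff

variable {k m : ℕ}

/-- **Row c-2.** Derivative of the transform. Proof: as in `TF.G_differentiable`
(Part03 line 113), whose `h1.2` is this. -/
theorem G_hasDeriv {g : ℝ → ℂ} {A B : ℝ} (hg : TF g A B) (w : ℂ) :
    HasDerivAt (G g) (G (fun u => g u * (u : ℂ)) w) w := by
  have h1 := hasDerivAt_integral_of_dominated_loc_of_deriv_le (𝕜 := ℂ) (μ := volume)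
    (F := fun (w : ℂ) (u : ℝ) => g u * exp (u * w)) (F' := fun (w : ℂ) (u : ℝ) => g u * (exp (u * w) * u))
    (x₀ := w) (s := Metric.ball w 1) (bound := fun u => ‖g u‖ * (Real.exp (|u| * (‖w‖ + 1)) * |u|))
    (Metric.ball_mem_nhds _ one_pos) ?_ (hg.integrable_mul_exp w) ?_ ?_ ?_ ?_
  · have h2 := h1.2
    have e : G (fun u => g u * (u : ℂ)) w = ∫ u : ℝ, g u * (exp (u * w) * u) := by
      unfold G
      refine integral_congr_ae (Eventually.of_forall fun u => ?_)
      simp only; ring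
    rw [e]
    exact h2
  · exact Eventually.of_forall fun w => (hg.integrable_mul_exp w).aestronglyMeasurable
  · refine Continuous.aestronglyMeasurable ?_
    exact hg.cont.mul (by fun_prop)
  · refine Eventually.of_forall fun u v hv => ?_
    rw [norm_mul, norm_mul, norm_exp, Complex.norm_real, Real.norm_eq_abs]
    apply mul_le_mul_of_nonneg_left _ (norm_nonneg _)
    apply mul_le_mul_of_nonneg_right _ (abs_nonneg _)
    apply Real.exp_le_exp.2
    have h2 : ((u : ℂ) * v).re = u * v.re := by simp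
    rw [h2]
    have h3 : ‖v‖ ≤ ‖w‖ + 1 := by
      have := norm_sub_norm_le v w
      have h4 : ‖v - w‖ < 1 := by simpa [dist_eq_norm] using hv
      linarith
    calc u * v.re ≤ |u * v.re| := le_abs_self _
      _ = |u| * |v.re| := abs_mul _ _
      _ ≤ |u| * (‖w‖ + 1) := by
        apply mul_le_mul_of_nonneg_left _ (abs_nonneg _)
        exact (abs_re_le_norm v).trans h3
  · refine Continuous.integrable_of_hasCompactSupport ?_ (hg.hcs.norm.mul_right)
    exact hg.cont.norm.mul (by fun_prop)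
  · refine Eventually.of_forall fun u v _ => ?_
    have h5 : HasDerivAt (fun w : ℂ => (u : ℂ) * w) u v := by
      simpa using (hasDerivAt_id v).const_mul (u : ℂ)
    exact (h5.cexp).const_mul (g u)

/-- **Row c-2.** `u g(u)` is again a test function. -/
theorem mul_TF {g : ℝ → ℂ} {A B : ℝ} (hg : TF g A B) : TF (fun u => g u * (u : ℂ)) A B := by
  refine ⟨?_, ?_⟩
  · have h1 : ContDiff ℝ ∞ fun u : ℝ => (u : ℂ) := Complex.ofRealCLM.contDiff
    exact hg.smooth.mul h1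
  · refine (closure_minimal ?_ (isClosed_tsupport g)).trans hg.supp
    intro u hu
    exact subset_tsupport _ (left_ne_zero_of_mul (show g u * (u : ℂ) ≠ 0 from hu))

theorem c2_bd {g : ℝ → ℂ} {A B : ℝ} (hg : TF g A B) (k : ℕ) (z₀ : ℂ) {L t : ℝ} (hL : 1 ≤ L)
    (ht : 0 ≤ t) : ∃ K : ℝ, ∀ z ∈ Metric.ball z₀ 1, ∀ α : ℝ,
      ‖G g (α * I - I * z) * 1 * Z k t (1/2 + (α / L : ℝ) * I)‖ ≤ K * (1 + α ^ 2)⁻¹ := by
  obtain ⟨C1, hC1, h1⟩ := decay_all hg (2 * k + 2)
  obtain ⟨C2, hC2, h2⟩ := Z_crit k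
  set M : ℝ := max |A| |B| with hM
  have hM0 : 0 ≤ M := le_max_of_le_left (abs_nonneg _)
  refine ⟨C2 * (2 + t) ^ (2 * k) * (2 + ‖z₀‖) ^ (2 * k + 2) *
    (C1 * Real.exp (M * (‖z₀‖ + 1))), ?_⟩
  intro z hz α
  have h4 : ‖z - z₀‖ < 1 := by simpa [dist_eq_norm] using hz
  have h5 : ‖z‖ ≤ ‖z₀‖ + 1 := by
    have := norm_sub_norm_le z z₀
    linarith
  have hre : ((α : ℂ) * I - I * z).re = z.im := by simp
  have him : ((α : ℂ) * I - I * z).im = α - z.re := by simp
  have e1 := h1 ((α : ℂ) * I - I * z)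
  rw [hre, him] at e1
  have e2 := h2 t (α / L) ht
  have hyL : |α / L| ≤ |α| := by
    rw [abs_div, abs_of_pos (by linarith only [hL] : (0:ℝ) < L)]
    exact div_le_self (abs_nonneg α) hL
  have e3 : (2 + |α / L| + t) ^ (2 * k) ≤ (2 + t) ^ (2 * k) * (1 + |α|) ^ (2 * k) := by
    rw [← mul_pow]
    apply pow_le_pow_left₀ (by positivity)
    nlinarith only [abs_nonneg α, ht, hyL]
  have hzre : |z.re| ≤ ‖z₀‖ + 1 := (abs_re_le_norm z).trans h5
  have hzim : |z.im| ≤ ‖z₀‖ + 1 := (abs_im_le_norm z).trans h5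
  have e4 : (1 + |α|) ^ (2 * k + 2) ≤ (2 + ‖z₀‖) ^ (2 * k + 2) * (1 + |α - z.re|) ^ (2 * k + 2) := by
    rw [← mul_pow]
    apply pow_le_pow_left₀ (by positivity)
    have e5 : |α| ≤ |α - z.re| + |z.re| := by
      have := abs_add_le (α - z.re) z.re
      rwa [sub_add_cancel] at this
    nlinarith only [abs_nonneg (α - z.re), norm_nonneg z₀, hzre, e5]
  have e6 : Real.exp (M * |z.im|) ≤ Real.exp (M * (‖z₀‖ + 1)) :=
    Real.exp_le_exp.2 (mul_le_mul_of_nonneg_left hzim hM0)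
  rw [mul_one, norm_mul, ← div_eq_mul_inv, le_div_iff₀ (by positivity)]
  have e7 : 1 + α ^ 2 ≤ (1 + |α|) ^ 2 := by nlinarith only [abs_nonneg α, sq_abs α]
  set N1 := ‖G g ((α : ℂ) * I - I * z)‖ with hN1
  have hN0 : 0 ≤ N1 := norm_nonneg _
  have hC20 : 0 ≤ C2 := by linarith only [hC2]
  calc N1 * ‖Z k t (1/2 + (α / L : ℝ) * I)‖ * (1 + α ^ 2)
      ≤ N1 * (C2 * ((2 + t) ^ (2 * k) * (1 + |α|) ^ (2 * k))) * (1 + |α|) ^ 2 := by
        gcongr
        exact e2.trans (by gcongr)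
    _ = (C2 * (2 + t) ^ (2 * k)) * (N1 * (1 + |α|) ^ (2 * k + 2)) := by ring
    _ ≤ (C2 * (2 + t) ^ (2 * k)) * (N1 * ((2 + ‖z₀‖) ^ (2 * k + 2) *
          (1 + |α - z.re|) ^ (2 * k + 2))) := by gcongr
    _ = (C2 * (2 + t) ^ (2 * k) * (2 + ‖z₀‖) ^ (2 * k + 2)) *
          (N1 * (1 + |α - z.re|) ^ (2 * k + 2)) := by ring
    _ ≤ (C2 * (2 + t) ^ (2 * k) * (2 + ‖z₀‖) ^ (2 * k + 2)) *
          (C1 * Real.exp (M * (‖z₀‖ + 1))) := by
        apply mul_le_mul_of_nonneg_left _ (by positivity)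
        exact e1.trans (mul_le_mul_of_nonneg_left e6 hC1)

theorem c2_cont {g : ℝ → ℂ} {A B : ℝ} (hg : TF g A B) (k : ℕ) (z : ℂ) (L t : ℝ) :
    Continuous fun α : ℝ => G g (α * I - I * z) * 1 * Z k t (1/2 + (α / L : ℝ) * I) := by
  refine Continuous.mul (Continuous.mul ?_ continuous_const) ?_
  · exact hg.G_differentiable.continuous.comp (by fun_prop)
  · exact (Z_cont_line k t).comp (g := fun y : ℝ => Z k t (1/2 + y * I))
      (f := fun α : ℝ => α / L) (by fun_prop)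

/-- **Row c-2.** The inner integral is an entire function of the phase. Proof:
`hasDerivAt_integral_of_dominated_loc_of_deriv_le` with
`F z α = G (g00 k) (α I - I z) * 1 * Z k t (1/2 + (α/L) I)`,
`F' z α = (-I) * G (fun u => g00 k u * u) (α I - I z) * Z ...` on the ball of radius 1 about `z₀`;
bound by `decay_all (mul_TF (g00_TF k)) (2*k+2)` and `Z_crit` exactly as in `JC_bound`
(for `‖z - z₀‖ < 1`: `|z.im| ≤ ‖z₀‖+1`, `1 + |α - z₀.re| ≤ 2 (1 + |α - z.re|)`). Continuity in `α`: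
`G_differentiable`, `Z_cont_line`/`Z_cont2`. -/
theorem JC_diff (k : ℕ) {L t : ℝ} (hL : 1 ≤ L) (ht : 0 ≤ t) :
    Differentiable ℂ fun z : ℂ => JJ k (gc k z) (fun _ _ => (1:ℂ)) L t := by
  intro z₀
  have hg := g00_TF k
  have hg' := mul_TF hg
  obtain ⟨K0, hK0⟩ := c2_bd hg k z₀ hL ht
  obtain ⟨K1, hK1⟩ := c2_bd hg' k z₀ hL ht
  have e : (fun z : ℂ => JJ k (gc k z) (fun _ _ => (1:ℂ)) L t) = fun z : ℂ =>
      ∫ α : ℝ, G (g00 k) (α * I - I * z) * 1 * Z k t (1/2 + (α / L : ℝ) * I) := by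
    funext z
    unfold JJ
    refine integral_congr_ae (Eventually.of_forall fun α => ?_)
    simp only
    rw [G_gc]
  rw [e]
  have h1 := hasDerivAt_integral_of_dominated_loc_of_deriv_le (𝕜 := ℂ) (μ := volume)
    (F := fun (z : ℂ) (α : ℝ) => G (g00 k) (α * I - I * z) * 1 * Z k t (1/2 + (α / L : ℝ) * I))
    (F' := fun (z : ℂ) (α : ℝ) => (G (fun u => g00 k u * (u : ℂ)) (α * I - I * z) * (-I)) * 1 *
      Z k t (1/2 + (α / L : ℝ) * I))
    (x₀ := z₀) (s := Metric.ball z₀ 1) (bound := fun α => K1 * (1 + α ^ 2)⁻¹)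
    (Metric.ball_mem_nhds _ one_pos) ?_ ?_ ?_ ?_ ?_ ?_
  · exact h1.2.differentiableAt
  · exact Eventually.of_forall fun z => (c2_cont hg k z L t).aestronglyMeasurable
  · refine Integrable.mono' (g := fun α => K0 * (1 + α ^ 2)⁻¹)
      (integrable_inv_one_add_sq.const_mul K0) (c2_cont hg k z₀ L t).aestronglyMeasurable ?_
    exact Eventually.of_forall fun α => hK0 z₀ (Metric.mem_ball_self one_pos) α
  · have h2 := (c2_cont hg' k z₀ L t).const_mul (-I)
    refine Continuous.aestronglyMeasurable ?_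
    refine h2.congr fun α => ?_
    ring
  · refine Eventually.of_forall fun α z hz => ?_
    have h3 := hK1 z hz α
    have h4 : ‖(G (fun u => g00 k u * (u : ℂ)) (α * I - I * z) * (-I)) * 1 *
        Z k t (1/2 + (α / L : ℝ) * I)‖ = ‖G (fun u => g00 k u * (u : ℂ)) (α * I - I * z) * 1 *
        Z k t (1/2 + (α / L : ℝ) * I)‖ := by
      rw [norm_mul, norm_mul, norm_mul, norm_neg, norm_I, mul_one, norm_mul, norm_mul]
    rw [h4]
    exact h3
  · exact integrable_inv_one_add_sq.const_mul K1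
  · refine Eventually.of_forall fun α z _ => ?_
    have h5 : HasDerivAt (fun z : ℂ => (α : ℂ) * I - I * z) (-I) z := by
      have := ((hasDerivAt_id z).const_mul I).const_sub ((α : ℂ) * I)
      simpa using this
    have h6 := (G_hasDeriv hg ((α : ℂ) * I - I * z)).comp z h5
    exact (h6.mul_const (1:ℂ)).mul_const _

end RCX
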