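import Pool.Agent.Lib.MP_069854_nt.RC.C0

namespace RCX
open MP069854 RGX
open Filter Topology Complex Set MeasureTheory Matrix
open scoped ComplexConjugate ContDiff

variable {k m : ℕ}

theorem sC_re {L : ℝ} (hL : 0 < L) (z : ℂ) : (1/2 + I * z / L : ℂ).re = 1/2 - z.im / L := by
  have : (1/2 + I * z / L : ℂ) = 1/2 + ((L⁻¹ : ℝ) : ℂ) * (I * z) := by
    push_cast; ring
  rw [this, add_re, re_ofReal_mul]
  simp; ring

theorem sC_im {L : ℝ} (hL : 0 < L) (z : ℂ) : (1/2 + I * z / L : ℂ).im = z.re / L := by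
  have : (1/2 + I * z / L : ℂ) = 1/2 + ((L⁻¹ : ℝ) : ℂ) * (I * z) := by
    push_cast; ring
  rw [this, add_im, im_ofReal_mul]
  simp; ring

/-- **Row c-3.** Bound near the critical line. Proof: `Z_strip k` (Part06 line 1353) at
`s = 1/2 + I z / L`, `s.re ∈ [1/4,3/4]` by `sC_re`, `|s.im| = |z.re|/L ≤ ‖z‖`. -/
theorem ZC_bound (k : ℕ) : ∃ C : ℝ, 1 ≤ C ∧ ∀ (z : ℂ) (L t : ℝ), 4 ≤ L → 0 ≤ t → 4 * |z.im| ≤ L →
    ‖Z k t (1/2 + I * z / L)‖ ≤ C * (2 + ‖z‖ + t) ^ (2 * k) := by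
  obtain ⟨C, hC1, hC⟩ := Z_strip k
  refine ⟨C, hC1, fun z L t hL ht hz => ?_⟩
  have hL0 : 0 < L := by linarith
  have h1 : |z.im / L| ≤ 1 / 4 := by
    rw [abs_div, abs_of_pos hL0, div_le_iff₀ hL0]
    linarith
  have h2 := abs_le.1 h1
  have h3 := hC t (1/2 + I * z / L) ht (by rw [sC_re hL0]; linarith [h2.2])
    (by rw [sC_re hL0]; linarith [h2.1])
  refine h3.trans ?_
  have h4 : |(1/2 + I * z / L : ℂ).im| ≤ ‖z‖ := by
    rw [sC_im hL0, abs_div, abs_of_pos hL0]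
    refine (div_le_self (abs_nonneg _) (by linarith)).trans (Complex.abs_re_le_norm z)
  have h5 : 2 + |(1/2 + I * z / L : ℂ).im| + t ≤ 2 + ‖z‖ + t := by linarith
  have h6 : 0 ≤ 2 + |(1/2 + I * z / L : ℂ).im| + t := by positivity
  exact mul_le_mul_of_nonneg_left (pow_le_pow_left₀ h6 h5 _) (by linarith)

/-- **Row c-3.** Proof: `Z_diff_strip` (real part < 1). -/
theorem ZC_diff (k : ℕ) (t : ℝ) {L : ℝ} (hL : 4 ≤ L) {z : ℂ} (hz : 4 * |z.im| ≤ L) :
    DifferentiableAt ℂ (fun z : ℂ => Z k t (1/2 + I * z / L)) z := by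
  have hL0 : 0 < L := by linarith
  have h1 : |z.im / L| ≤ 1 / 4 := by
    rw [abs_div, abs_of_pos hL0, div_le_iff₀ hL0]
    linarith
  have h2 : (1/2 + I * z / L : ℂ).re < 1 := by
    rw [sC_re hL0]
    linarith [(abs_le.1 h1).1]
  have h3 : DifferentiableAt ℂ (fun z : ℂ => (1/2 + I * z / L : ℂ)) z := by fun_prop
  exact DifferentiableAt.comp z (Z_diff_strip k t h2) h3

/-- **Row c-3.** Continuity in `t`. Proof: both arguments `1/2 + I z/L ± t I` have real part
`< 1`, so differ from `1`: `differentiableAt_riemannZeta`. -/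
theorem ZC_cont (k : ℕ) {L : ℝ} (hL : 4 ≤ L) {z : ℂ} (hz : 4 * |z.im| ≤ L) :
    Continuous fun t : ℝ => Z k t (1/2 + I * z / L) := by
  have hL0 : 0 < L := by linarith
  have h1 : |z.im / L| ≤ 1 / 4 := by
    rw [abs_div, abs_of_pos hL0, div_le_iff₀ hL0]
    linarith
  have h2 : (1/2 + I * z / L : ℂ).re < 1 := by
    rw [sC_re hL0]
    linarith [(abs_le.1 h1).1]
  have h3 : ∀ t : ℝ, (1/2 + I * z / L : ℂ) + t * I ≠ 1 := by
    intro t h
    have h4 := congrArg Complex.re h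
    rw [add_re] at h4
    simp only [mul_re, ofReal_re, ofReal_im, I_re, I_im, mul_zero, zero_mul, sub_zero, add_zero, one_re] at h4
    linarith
  have h3' : ∀ t : ℝ, (1/2 + I * z / L : ℂ) - t * I ≠ 1 := by
    intro t h
    have h4 := congrArg Complex.re h
    rw [sub_re] at h4
    simp only [mul_re, ofReal_re, ofReal_im, I_re, I_im, mul_zero, zero_mul, sub_zero, one_re] at h4
    linarith
  rw [continuous_iff_continuousAt]
  intro t
  unfold Z
  have h5 : ContinuousAt (fun t : ℝ => riemannZeta ((1/2 + I * z / L : ℂ) + t * I)) t :=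
    ContinuousAt.comp (f := fun t : ℝ => (1/2 + I * z / L : ℂ) + t * I) (g := riemannZeta)
      (differentiableAt_riemannZeta (h3 t)).continuousAt (by fun_prop)
  have h6 : ContinuousAt (fun t : ℝ => riemannZeta ((1/2 + I * z / L : ℂ) - t * I)) t :=
    ContinuousAt.comp (f := fun t : ℝ => (1/2 + I * z / L : ℂ) - t * I) (g := riemannZeta)
      (differentiableAt_riemannZeta (h3' t)).continuousAt (by fun_prop)
  exact (h5.pow k).mul (h6.pow k)

end RCX
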