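import Mathlib

namespace RCX
open Filter Topology Complex Set MeasureTheory

theorem c4_norm {ζ : ℂ} (h : 0 ≤ ζ.re) : 1 + ‖ζ‖ ≤ 2 * ‖ζ + 1‖ := by
  have h1 : ‖ζ‖ ≤ ‖ζ + 1‖ := by
    rw [Complex.norm_def, Complex.norm_def]
    apply Real.sqrt_le_sqrt
    rw [Complex.normSq_apply, Complex.normSq_apply, Complex.add_re, Complex.add_im, Complex.one_re,
      Complex.one_im]
    nlinarith
  have h2 : 1 ≤ ‖ζ + 1‖ := by
    have h3 := Complex.re_le_norm (ζ + 1)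
    rw [Complex.add_re, Complex.one_re] at h3
    linarith
  linarith

theorem c4_pos (M : ℕ) {F : ℂ → ℂ} {Y e B : ℝ} (hY : 0 < Y) (he : 0 < e) (hB : 0 < B)
    (hd : ∀ z : ℂ, |z.im| ≤ Y → DifferentiableAt ℂ F z)
    (h0 : ∀ x : ℝ, ‖F x‖ ≤ e * (1 + |x|) ^ M)
    (hb : ∀ z : ℂ, |z.im| ≤ Y → ‖F z‖ ≤ B * (1 + ‖z‖) ^ M) {z : ℂ} (hz : z.im ≤ Y)
    (hz0 : 0 ≤ z.im) :
    ‖F z‖ ≤ (4 * (1 + ‖z‖)) ^ M * e ^ (1 - z.im / Y) * B ^ (z.im / Y) := by
  have him : ∀ ζ : ℂ, (Complex.I * ζ).im = ζ.re := by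
    intro ζ
    simp
  have hin : ∀ ζ : ℂ, ‖Complex.I * ζ‖ = ‖ζ‖ := by
    intro ζ
    rw [norm_mul, Complex.norm_I, one_mul]
  have hne : ∀ ζ : ℂ, 0 ≤ ζ.re → ζ + 1 ≠ 0 := by
    intro ζ h h1
    have h2 := congrArg Complex.re h1
    rw [Complex.add_re, Complex.one_re, Complex.zero_re] at h2
    linarith
  have hnp : ∀ ζ : ℂ, 0 ≤ ζ.re → 0 < ‖ζ + 1‖ := fun ζ h => norm_pos_iff.2 (hne ζ h)
  set f : ℂ → ℂ := fun ζ => F (Complex.I * ζ) / (ζ + 1) ^ M with hf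
  have hgen : ∀ (ζ : ℂ) (b : ℝ), 0 < b → 0 ≤ ζ.re → ‖F (Complex.I * ζ)‖ ≤ b * (1 + ‖ζ‖) ^ M →
      ‖f ζ‖ ≤ 2 ^ M * b := by
    intro ζ b hb0 h h1
    have h2 := hnp ζ h
    rw [hf]
    show ‖F (Complex.I * ζ) / (ζ + 1) ^ M‖ ≤ _
    rw [norm_div, norm_pow, div_le_iff₀ (pow_pos h2 M)]
    refine h1.trans ?_
    calc b * (1 + ‖ζ‖) ^ M ≤ b * (2 * ‖ζ + 1‖) ^ M := by
          apply mul_le_mul_of_nonneg_left _ hb0.le
          exact pow_le_pow_left₀ (by positivity) (c4_norm h) M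
      _ = 2 ^ M * b * ‖ζ + 1‖ ^ M := by
          rw [mul_pow]
          ring
  have hstrip : ∀ ζ ∈ Complex.HadamardThreeLines.verticalClosedStrip 0 Y, ‖f ζ‖ ≤ 2 ^ M * B := by
    intro ζ hζ
    have h1 : 0 ≤ ζ.re := hζ.1
    have h2 : ζ.re ≤ Y := hζ.2
    apply hgen ζ B hB h1
    have h3 := hb (Complex.I * ζ) (by rw [him, abs_of_nonneg h1]; exact h2)
    rwa [hin] at h3
  have hcl : closure (Complex.HadamardThreeLines.verticalStrip 0 Y) ⊆
      Complex.HadamardThreeLines.verticalClosedStrip 0 Y := by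
    apply closure_minimal
    · intro ζ hζ
      exact ⟨le_of_lt hζ.1, le_of_lt hζ.2⟩
    · exact isClosed_Icc.preimage Complex.continuous_re
  have hdiff : DiffContOnCl ℂ f (Complex.HadamardThreeLines.verticalStrip 0 Y) := by
    apply DifferentiableOn.diffContOnCl
    intro ζ hζ
    have h1 := hcl hζ
    have h2 : 0 ≤ ζ.re := h1.1
    have h3 : ζ.re ≤ Y := h1.2
    apply DifferentiableAt.differentiableWithinAt
    apply DifferentiableAt.div
    · have h4 : DifferentiableAt ℂ F (Complex.I * ζ) :=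
        hd _ (by rw [him, abs_of_nonneg h2]; exact h3)
      exact DifferentiableAt.comp ζ h4 (differentiableAt_id.const_mul Complex.I)
    · exact (differentiableAt_id.add_const (1 : ℂ)).pow M
    · exact pow_ne_zero _ (hne ζ h2)
  have hzm : -Complex.I * z ∈ Complex.HadamardThreeLines.verticalClosedStrip 0 Y := by
    have h1 : (-Complex.I * z).re = z.im := by simp
    constructor
    · show 0 ≤ (-Complex.I * z).re
      rw [h1]
      exact hz0
    · show (-Complex.I * z).re ≤ Y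
      rw [h1]
      exact hz
  have hzz : Complex.I * (-Complex.I * z) = z := by
    rw [← mul_assoc, mul_neg, Complex.I_mul_I, neg_neg, one_mul]
  have hzr : (-Complex.I * z).re = z.im := by simp
  have hzn : ‖-Complex.I * z‖ = ‖z‖ := by
    rw [norm_mul, norm_neg, Complex.norm_I, one_mul]
  have key := Complex.HadamardThreeLines.norm_le_interp_of_mem_verticalClosedStrip' (f := f)
    (z := -Complex.I * z) (a := 2 ^ M * e) (b := 2 ^ M * B) (l := 0) (u := Y) hY hzm hdiff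
    ⟨2 ^ M * B, by
      rintro _ ⟨ζ, hζ, rfl⟩
      exact hstrip ζ hζ⟩
    (by
      intro ζ hζ
      have h1 : ζ.re = 0 := hζ
      apply hgen ζ e he (by rw [h1])
      have h2 : Complex.I * ζ = ((-ζ.im : ℝ) : ℂ) := by
        apply Complex.ext
        · simp
        · simp [h1]
      have h3 := h0 (-ζ.im)
      rw [h2]
      refine h3.trans ?_
      rw [abs_neg]
      apply mul_le_mul_of_nonneg_left _ he.le
      apply pow_le_pow_left₀ (by positivity)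
      have h4 := Complex.abs_im_le_norm ζ
      linarith)
    (by
      intro ζ hζ
      have h1 : ζ.re = Y := hζ
      apply hstrip ζ
      constructor
      · show 0 ≤ ζ.re
        rw [h1]
        exact hY.le
      · show ζ.re ≤ Y
        rw [h1])
  rw [hzr, sub_zero, sub_zero] at key
  have hθ0 : 0 ≤ z.im / Y := div_nonneg hz0 hY.le
  have hθ1 : z.im / Y ≤ 1 := (div_le_one hY).2 hz
  have hp : (2 ^ M * e) ^ (1 - z.im / Y) * (2 ^ M * B) ^ (z.im / Y) =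
      2 ^ M * (e ^ (1 - z.im / Y) * B ^ (z.im / Y)) := by
    have h2 : (0 : ℝ) < 2 ^ M := by positivity
    rw [Real.mul_rpow h2.le he.le, Real.mul_rpow h2.le hB.le]
    have h3 : ((2 : ℝ) ^ M) ^ (1 - z.im / Y) * ((2 : ℝ) ^ M) ^ (z.im / Y) = 2 ^ M := by
      rw [← Real.rpow_add h2, sub_add_cancel, Real.rpow_one]
    calc ((2 : ℝ) ^ M) ^ (1 - z.im / Y) * e ^ (1 - z.im / Y) *
          (((2 : ℝ) ^ M) ^ (z.im / Y) * B ^ (z.im / Y))
        = (((2 : ℝ) ^ M) ^ (1 - z.im / Y) * ((2 : ℝ) ^ M) ^ (z.im / Y)) *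
          (e ^ (1 - z.im / Y) * B ^ (z.im / Y)) := by ring
      _ = _ := by rw [h3]
  rw [hp] at key
  have h5 : ‖f (-Complex.I * z)‖ * ‖-Complex.I * z + 1‖ ^ M = ‖F z‖ := by
    rw [hf]
    show ‖F (Complex.I * (-Complex.I * z)) / (-Complex.I * z + 1) ^ M‖ * _ = _
    rw [hzz, norm_div, norm_pow, div_mul_cancel₀]
    exact pow_ne_zero _ (ne_of_gt (hnp _ (by rw [hzr]; exact hz0)))
  have h6 : ‖-Complex.I * z + 1‖ ≤ 1 + ‖z‖ := by
    have h7 := norm_add_le (-Complex.I * z) 1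
    rw [hzn, norm_one] at h7
    linarith
  have h8 : 0 ≤ e ^ (1 - z.im / Y) * B ^ (z.im / Y) :=
    mul_nonneg (Real.rpow_nonneg he.le _) (Real.rpow_nonneg hB.le _)
  rw [← h5]
  calc ‖f (-Complex.I * z)‖ * ‖-Complex.I * z + 1‖ ^ M
      ≤ (2 ^ M * (e ^ (1 - z.im / Y) * B ^ (z.im / Y))) * (1 + ‖z‖) ^ M := by
        apply mul_le_mul key (pow_le_pow_left₀ (norm_nonneg _) h6 M) (by positivity)
        exact mul_nonneg (by positivity) h8
    _ ≤ (4 ^ M * (e ^ (1 - z.im / Y) * B ^ (z.im / Y))) * (1 + ‖z‖) ^ M := by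
        apply mul_le_mul_of_nonneg_right _ (by positivity)
        apply mul_le_mul_of_nonneg_right _ h8
        exact pow_le_pow_left₀ (by norm_num) (by norm_num) M
    _ = (4 * (1 + ‖z‖)) ^ M * e ^ (1 - z.im / Y) * B ^ (z.im / Y) := by
        rw [mul_pow]
        ring

/-- **Row c-4.** Three lines theorem with polynomial growth. Proof: for `0 ≤ z.im` (the other case is
`w ↦ F (conj ..)` or, simpler, the same with `w ↦ F (-w)`: prove the case `0 ≤ z.im` first as a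
lemma and apply it to `w ↦ F (-w)`), put `f w = F w / (w + I)^M`; for `0 ≤ w.im` one has
`1 + ‖w‖ ≤ 2 ‖w + I‖`, so `‖f‖ ≤ 2^M e` on the real line and `‖f‖ ≤ 2^M B` in `0 ≤ im ≤ Y`. Apply
`Complex.HadamardThreeLines.norm_le_interp_of_mem_verticalClosedStrip'` (or the version without
prime) to `ξ ↦ f (I * Y * ξ ...)` with `ξ = -I w / Y` (i.e. `w = I Y ξ`, `re ξ = w.im/Y ∈ [0,1]`):
`‖f z‖ ≤ (2^M e)^(1 - z.im/Y) * (2^M B)^(z.im/Y) = 2^M e^(1-θ) B^θ`. Finally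
`‖F z‖ = ‖f z‖ ‖z + I‖^M ≤ ‖f z‖ (1+‖z‖)^M`. -/
theorem three (M : ℕ) {F : ℂ → ℂ} {Y e B : ℝ} (hY : 0 < Y) (he : 0 < e) (hB : 0 < B)
    (hd : ∀ z : ℂ, |z.im| ≤ Y → DifferentiableAt ℂ F z)
    (h0 : ∀ x : ℝ, ‖F x‖ ≤ e * (1 + |x|) ^ M)
    (hb : ∀ z : ℂ, |z.im| ≤ Y → ‖F z‖ ≤ B * (1 + ‖z‖) ^ M) {z : ℂ} (hz : |z.im| ≤ Y) :
    ‖F z‖ ≤ (4 * (1 + ‖z‖)) ^ M * e ^ (1 - |z.im| / Y) * B ^ (|z.im| / Y) := by
  rcases le_total 0 z.im with h | h
  · rw [abs_of_nonneg h] at hz ⊢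
    exact c4_pos M hY he hB hd h0 hb hz h
  · rw [abs_of_nonpos h] at hz ⊢
    have h1 := c4_pos M (F := fun w => F (-w)) hY he hB (fun w hw => by
        have h2 : DifferentiableAt ℂ F (-w) := hd (-w) (by rw [Complex.neg_im, abs_neg]; exact hw)
        exact DifferentiableAt.comp w h2 differentiableAt_id.neg) (fun x => by
        have h2 := h0 (-x)
        rw [abs_neg, Complex.ofReal_neg] at h2
        exact h2) (fun w hw => by
        have h2 := hb (-w) (by rw [Complex.neg_im, abs_neg]; exact hw)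
        rw [norm_neg] at h2
        exact h2) (z := -z) (by rw [Complex.neg_im]; exact hz) (by rw [Complex.neg_im]; linarith)
    rw [neg_neg, norm_neg, Complex.neg_im] at h1
    exact h1

end RCX
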