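import Pool.Agent.Lib.MP_069854_nt.RC.C2
import Pool.Agent.Lib.MP_069854_nt.RC.C3
import Pool.Agent.Lib.MP_069854_nt.RC.C4

namespace RCX
open MP069854 RGX
open Filter Topology Complex Set MeasureTheory Matrix
open scoped ComplexConjugate ContDiff

variable {k m : ℕ}

/-- the error at one `t` -/
noncomputable def FC (k : ℕ) (L t : ℝ) (z : ℂ) : ℂ :=
  2 * Real.pi * Z k t (1/2 + I * z / L) - JJ k (gc k z) (fun _ _ => (1:ℂ)) L t

/-- **Row c-5a.** On the real line this is `E1 - E2`. Proof: `rep` (Part06) and `gc_real`. -/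
theorem FC_real (k : ℕ) {L t : ℝ} (hL : 4 ≤ L) (ht : 0 ≤ t) (x : ℝ) :
    FC k L t (x : ℂ) = E1 k x L t - E2 k x L t := by
  have h1 := rep hL k x t ht
  have h2 : (1/2 + I * (x : ℂ) / L : ℂ) = 1/2 + (x / L : ℝ) * I := by
    push_cast; ring
  unfold FC
  rw [gc_real, h2, h1]
  ring

/-- **Row c-5a.** Crude bound. Proof: `ZC_bound`, `JC_bound`;
`(2+‖z‖+t) ≤ (1+‖z‖)(2+t)`, `1 ≤ exp(..)`. -/
theorem FC_crude (k : ℕ) : ∃ C : ℝ, 1 ≤ C ∧ ∀ (z : ℂ) (L t : ℝ), 4 ≤ L → 0 ≤ t → 4 * |z.im| ≤ L →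
    ‖FC k L t z‖ ≤ C * Real.exp ((2 * k + 1) * |z.im|) * (2 + t) ^ (2 * k) * (1 + ‖z‖) ^ (2 * k) := by
  obtain ⟨C1, hC1, b1⟩ := ZC_bound k
  obtain ⟨C2, hC2, b2⟩ := JC_bound k
  have hpi : (3 : ℝ) < Real.pi := Real.pi_gt_three
  refine ⟨2 * Real.pi * C1 + C2, ?_, ?_⟩
  · nlinarith
  · intro z L t hL ht hz
    have hz0 : 0 ≤ ‖z‖ := norm_nonneg z
    have h1 := b1 z L t hL ht hz
    have h2 := b2 z L t (by linarith) ht
    have he : 1 ≤ Real.exp ((2 * k + 1) * |z.im|) := Real.one_le_exp (by positivity)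
    have h3 : (2 + ‖z‖ + t) ^ (2 * k) ≤ (2 + t) ^ (2 * k) * (1 + ‖z‖) ^ (2 * k) := by
      rw [← mul_pow]
      refine pow_le_pow_left₀ (by positivity) ?_ _
      nlinarith [mul_nonneg hz0 ht]
    have hP : 0 ≤ (2 + t) ^ (2 * k) * (1 + ‖z‖) ^ (2 * k) := by positivity
    have h4 : (2 + ‖z‖ + t) ^ (2 * k) ≤
        Real.exp ((2 * k + 1) * |z.im|) * ((2 + t) ^ (2 * k) * (1 + ‖z‖) ^ (2 * k)) :=
      h3.trans (le_mul_of_one_le_left hP he)
    have h5 : ‖(2 * Real.pi * Z k t (1/2 + I * z / L) : ℂ)‖ ≤ 2 * Real.pi * C1 *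
        (Real.exp ((2 * k + 1) * |z.im|) * ((2 + t) ^ (2 * k) * (1 + ‖z‖) ^ (2 * k))) := by
      have h6 : ‖(2 * Real.pi * Z k t (1/2 + I * z / L) : ℂ)‖ =
          2 * Real.pi * ‖Z k t (1/2 + I * z / L)‖ := by
        rw [norm_mul, norm_mul, Complex.norm_real, Real.norm_of_nonneg Real.pi_pos.le]
        norm_num
      rw [h6, mul_assoc (2 * Real.pi) C1]
      refine mul_le_mul_of_nonneg_left (h1.trans ?_) (by positivity)
      exact mul_le_mul_of_nonneg_left h4 (by linarith)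
    unfold FC
    refine (norm_sub_le _ _).trans ((add_le_add h5 h2).trans (le_of_eq ?_))
    ring

theorem c5b_tendsto (a c b : ℝ) :
    Tendsto (fun T : ℝ => a * (c / Real.log T) ^ (1 / 2 : ℝ) * b) atTop (𝓝 0) := by
  have h1 : Tendsto (fun T : ℝ => c / Real.log T) atTop (𝓝 0) :=
    Real.tendsto_log_atTop.const_div_atTop c
  have h2 : Tendsto (fun x : ℝ => x ^ (1 / 2 : ℝ)) (𝓝 0) (𝓝 ((0:ℝ) ^ (1 / 2 : ℝ))) :=
    (Real.continuousAt_rpow_const 0 (1 / 2) (Or.inr (by norm_num))).tendsto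
  rw [Real.zero_rpow (by norm_num)] at h2
  have h3 := ((h2.comp h1).const_mul a).mul_const b
  simpa only [mul_zero, zero_mul, Function.comp_def] using h3

theorem c5b_diff (k : ℕ) {L t : ℝ} (hL : 4 ≤ L) (ht : 0 ≤ t) {w : ℂ} (hw : 4 * |w.im| ≤ L) :
    DifferentiableAt ℂ (FC k L t) w := by
  have h1 := (ZC_diff k t hL hw).const_mul (2 * Real.pi : ℂ)
  have h2 := (JC_diff k (by linarith only [hL] : (1:ℝ) ≤ L) ht) w
  exact h1.sub h2

theorem c5b_crude (k : ℕ) {C2 T t : ℝ} (hC2 : 1 ≤ C2) (hT : Real.exp 4 ≤ T) (htT : t ≤ T)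
    (ht : 0 ≤ t) {w : ℂ} (hw : |w.im| ≤ Real.log T / 4) {M : ℕ} (hM : 2 * k ≤ M) :
    C2 * Real.exp ((2 * k + 1) * |w.im|) * (2 + t) ^ (2 * k) * (1 + ‖w‖) ^ (2 * k) ≤
      Real.exp ((C2 + (2 * k + 1) / 4 + 4 * k) * Real.log T) * (1 + ‖w‖) ^ M := by
  have hT0 : 0 < T := (Real.exp_pos 4).trans_le hT
  set L : ℝ := Real.log T with hLdef
  have hL4 : 4 ≤ L := (Real.le_log_iff_exp_le hT0).2 hT
  have hTL : T = Real.exp L := (Real.exp_log hT0).symm
  have h4 : (5:ℝ) ≤ T := by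
    have := Real.add_one_le_exp (4:ℝ)
    linarith only [this, hT]
  have h1 : C2 ≤ Real.exp (C2 * L) := by
    have a := Real.add_one_le_exp (C2 * L)
    have b : C2 ≤ C2 * L := le_mul_of_one_le_right (by linarith only [hC2]) (by linarith only [hL4])
    linarith only [a, b]
  have h2 : Real.exp ((2 * k + 1) * |w.im|) ≤ Real.exp ((2 * k + 1) / 4 * L) := by
    refine Real.exp_le_exp.2 ?_
    have : (0:ℝ) ≤ 2 * (k:ℝ) + 1 := by positivity
    calc (2 * (k:ℝ) + 1) * |w.im| ≤ (2 * (k:ℝ) + 1) * (L / 4) := mul_le_mul_of_nonneg_left hw this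
      _ = (2 * (k:ℝ) + 1) / 4 * L := by ring
  have h3 : (2 + t) ^ (2 * k) ≤ Real.exp (4 * k * L) := by
    have a : 2 + t ≤ Real.exp (2 * L) := by
      have : Real.exp (2 * L) = T * T := by
        rw [two_mul, Real.exp_add, ← hTL]
      rw [this]
      nlinarith only [h4, htT]
    calc (2 + t) ^ (2 * k) ≤ (Real.exp (2 * L)) ^ (2 * k) :=
          pow_le_pow_left₀ (by linarith only [ht]) a _
      _ = Real.exp (4 * k * L) := by
          rw [← Real.exp_nat_mul]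
          congr 1
          push_cast
          ring
  have h5 : (1 + ‖w‖) ^ (2 * k) ≤ (1 + ‖w‖) ^ M := by
    refine pow_le_pow_right₀ ?_ hM
    have := norm_nonneg w
    linarith only [this]
  have hE : Real.exp ((C2 + (2 * k + 1) / 4 + 4 * k) * L) =
      Real.exp (C2 * L) * Real.exp ((2 * k + 1) / 4 * L) * Real.exp (4 * k * L) := by
    rw [← Real.exp_add, ← Real.exp_add]
    congr 1
    ring
  rw [hE]
  have hC0 : 0 ≤ C2 := by linarith only [hC2]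
  have p2 : 0 ≤ 2 + t := by linarith only [ht]
  refine mul_le_mul (mul_le_mul (mul_le_mul h1 h2 ?_ ?_) h3 ?_ ?_) h5 ?_ ?_ <;> positivity

/-- **Row c-5b.** Smallness for fixed `z`, uniformly for `10 exp(log T/(2k+2)) ≤ t ≤ T`. Proof: let
`C₁, M₁` be from `end_bounds k`, `C₂` from `FC_crude`, `M = max M₁ (2k)`, `L = log T`, `Y = L/4`.
`three M` for `F = FC k L t` (differentiable by `ZC_diff`, `JC_diff`), `e = (C₁+1)/L`,
`B = C₂ exp((2k+1) L/4) (2+T)^(2k)` and `z` (`4|z.im| ≤ L` for `T` large): with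
`θ = 4|z.im|/L ≤ 1/2`, `e ≤ 1`: `e^(1-θ) ≤ e^(1/2)` (`Real.rpow_le_rpow_of_exponent_ge`) and
`B^θ = exp(θ log B)`, `log B ≤ log C₂ + (2k+1)L/4 + 2k(L+1) ≤ K L`, so `B^θ ≤ exp(4 K |z.im|)`.
Hence `δ T = const * ((C₁+1)/log T)^(1/2)` works. -/
theorem FC_small (k : ℕ) (z : ℂ) : ∃ δ : ℝ → ℝ, Tendsto δ atTop (𝓝 0) ∧ ∀ᶠ T : ℝ in atTop,
    ∀ t : ℝ, 10 * Real.exp (Real.log T / (2 * k + 2)) ≤ t → t ≤ T → ‖FC k (Real.log T) t z‖ ≤ δ T := by
  obtain ⟨C1, M1, hC1, -, hb⟩ := end_bounds k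
  obtain ⟨C2, hC2, hc⟩ := FC_crude k
  set M : ℕ := max M1 (2 * k) with hM
  set K : ℝ := C2 + (2 * k + 1) / 4 + 4 * k with hK
  refine ⟨fun T => (4 * (1 + ‖z‖)) ^ M * ((C1 + 1) / Real.log T) ^ (1 / 2 : ℝ) *
    Real.exp (4 * K * |z.im|), c5b_tendsto _ _ _, ?_⟩
  filter_upwards [eventually_ge_atTop (Real.exp 4),
    Real.tendsto_log_atTop.eventually_ge_atTop (8 * |z.im|),
    Real.tendsto_log_atTop.eventually_ge_atTop (C1 + 1)] with T hT4 hTz hTC t ht htT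
  have hT0 : 0 < T := (Real.exp_pos 4).trans_le hT4
  set L : ℝ := Real.log T with hLdef
  have hL4 : 4 ≤ L := (Real.le_log_iff_exp_le hT0).2 hT4
  have hL0 : 0 < L := by linarith only [hL4]
  have hk2 : (0:ℝ) < 2 * (k:ℝ) + 2 := by positivity
  have hY1 : 1 ≤ Real.exp (L / (2 * (k:ℝ) + 2)) := Real.one_le_exp (by positivity)
  have ht8 : 8 < t := by linarith only [ht, hY1]
  have ht0 : 0 ≤ t := by linarith only [ht8]
  have ht2 : 2 * Real.exp (L / (2 * (k:ℝ) + 2)) ≤ t := by linarith only [ht, hY1]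
  have hY : 0 < L / 4 := by positivity
  have he : 0 < (C1 + 1) / L := by positivity
  have he1 : (C1 + 1) / L ≤ 1 := (div_le_one hL0).2 hTC
  have hzY : |z.im| ≤ L / 4 := by
    have := abs_nonneg z.im
    linarith only [this, hTz]
  have key := three M (F := FC k L t) (Y := L / 4) (e := (C1 + 1) / L) (B := Real.exp (K * L))
    hY he (Real.exp_pos _)
    (fun w hw => c5b_diff k hL4 ht0 (by linarith only [hw]))
    (fun x => by
      rw [FC_real k hL4 ht0 x]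
      refine (hb x t T hT4 ht2 htT ht8).trans ?_
      have h1 : (1:ℝ) ≤ 1 + |x| := by
        have := abs_nonneg x
        linarith only [this]
      have h2 : (1 + |x|) ^ M1 ≤ (1 + |x|) ^ M := pow_le_pow_right₀ h1 (le_max_left _ _)
      have h3 : C1 * (1 + |x|) ^ M1 ≤ (C1 + 1) * (1 + |x|) ^ M := by
        refine mul_le_mul (by linarith only []) h2 (by positivity) (by positivity)
      calc C1 * (1 + |x|) ^ M1 / L ≤ (C1 + 1) * (1 + |x|) ^ M / L := by gcongr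
        _ = (C1 + 1) / L * (1 + |x|) ^ M := by ring)
    (fun w hw => by
      refine (hc w L t hL4 ht0 (by linarith only [hw])).trans ?_
      exact c5b_crude k hC2 hT4 htT ht0 hw (le_max_right _ _))
    hzY
  refine key.trans ?_
  have hθ : |z.im| / (L / 4) ≤ 1 / 2 := by
    rw [div_le_iff₀ hY]
    linarith only [hTz]
  have hr : ((C1 + 1) / L) ^ (1 - |z.im| / (L / 4)) ≤ ((C1 + 1) / L) ^ (1 / 2 : ℝ) :=
    Real.rpow_le_rpow_of_exponent_ge he he1 (by linarith only [hθ])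
  have hB : Real.exp (K * L) ^ (|z.im| / (L / 4)) = Real.exp (4 * K * |z.im|) := by
    rw [← Real.exp_mul]
    congr 1
    field_simp
  rw [hB]
  have h0 : (0:ℝ) ≤ (4 * (1 + ‖z‖)) ^ M := by positivity
  exact mul_le_mul_of_nonneg_right (mul_le_mul_of_nonneg_left hr h0) (Real.exp_pos _).le

end RCX
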