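import Pool.Agent.Lib.MP_069854_nt.RC.C5

namespace RCX
open MP069854 RGX
open Filter Topology Complex Set MeasureTheory Matrix
open scoped ComplexConjugate ContDiff

variable {k m : ℕ}

/-- **Row c-6.** Representation of `Q_k(z,T)` for complex `z` by a smooth average over real shifts.
Proof: as `unif_rep` (end of Part06): by `QC_eq`, `Qk_integral (gc_TF k z)` the difference is
`(T L^(k²))⁻¹ ∫_0^T FC k L t z dt`; split at `10 Y`, `Y = exp(L/(2k+2))`: on `[0,10Y]` use `FC_crude`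
(`C e^{..}(1+‖z‖)^(2k) (12Y)^(2k) * 10Y / T → 0` since `Y^(2k+2) = T`, `Y^(2k+1)/T = exp(-L/(2k+2))`),
on `[10Y,T]` use `FC_small`. Integrability in `t`: `ZC_cont`, `JJ_one_intervalIntegrable`. -/
theorem key (k : ℕ) (z : ℂ) : Tendsto (fun T : ℝ => 2 * Real.pi * QC k z T -
    ∫ α : ℝ, G (gc k z) (α * I) * Qk k α T) atTop (𝓝 0) := by
  obtain ⟨C, hC1, hb1⟩ := FC_crude k
  obtain ⟨δ, hδ, hb2⟩ := FC_small k z
  obtain ⟨D, hD⟩ : ∃ D : ℝ, D = C * Real.exp ((2 * k + 1) * |z.im|) * (1 + ‖z‖) ^ (2 * k) :=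
    ⟨_, rfl⟩
  have hD0 : 0 ≤ D := by
    rw [hD]
    have : 0 ≤ C := by linarith
    positivity
  refine squeeze_zero_norm' (a := fun T : ℝ => D * 12 ^ (2 * k) * 10 *
    Real.exp (-(1 / (2 * (k:ℝ) + 2)) * Real.log T) + |δ T|) ?_ ?_
  · have hlarge : ∀ᶠ T : ℝ in atTop, 10 * Real.exp (Real.log T / (2 * k + 2)) ≤ T ∧
        Real.exp 8 ≤ T ∧ 4 ≤ Real.exp (Real.log T / (2 * (k:ℝ) + 2)) ∧
        4 * |z.im| ≤ Real.log T := by
      have t1 : Tendsto (fun T : ℝ => Real.exp (Real.log T / (2 * (k:ℝ) + 2))) atTop atTop :=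
        Real.tendsto_exp_atTop.comp (Real.tendsto_log_atTop.atTop_div_const (by positivity))
      filter_upwards [t1.eventually_ge_atTop 10, eventually_ge_atTop (Real.exp 8),
        Real.tendsto_log_atTop.eventually_ge_atTop (4 * |z.im|)] with T h1 h2 h3
      refine ⟨?_, h2, by linarith only [h1], h3⟩
      have hT4 : Real.exp 4 ≤ T := (Real.exp_le_exp.2 (by norm_num)).trans h2
      obtain ⟨hT0, hL4, hY1, hYT, hLT⟩ := Y_facts k hT4
      set Y := Real.exp (Real.log T / (2 * (k:ℝ) + 2)) with hY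
      calc 10 * Y ≤ Y * Y := by (clear * - h1; gcongr)
        _ = Y ^ 2 := by ring
        _ ≤ Y ^ (2 * k + 2) := pow_le_pow_right₀ hY1 (by (clear * -; omega))
        _ = T := hYT
    filter_upwards [hlarge, hb2] with T hT hb2T
    obtain ⟨hT10, hT8, hY4, hz4⟩ := hT
    have hT4 : Real.exp 4 ≤ T := (Real.exp_le_exp.2 (by norm_num)).trans hT8
    obtain ⟨hT0, hL4, hY1, hYT, hLT⟩ := Y_facts k hT4
    have hT1 : 1 < T := lt_of_lt_of_le (by have := Real.add_one_le_exp (8:ℝ); linarith only [this]) hT8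
    set L := Real.log T with hLdef
    set Y := Real.exp (L / (2 * (k:ℝ) + 2)) with hY
    have hL0 : 0 < L := by linarith only [hL4]
    obtain ⟨F, hF⟩ : ∃ F : ℝ → ℂ, F = fun t => FC k L t z := ⟨_, rfl⟩
    have hZi : IntervalIntegrable (fun t => Z k t (1/2 + I * z / L)) volume 0 T :=
      (ZC_cont k hL4 hz4).intervalIntegrable _ _
    have hJi := JJ_one_intervalIntegrable (k := k) (gc_TF k z) hL0 (T := T) hT0.le
    have hFi : IntervalIntegrable F volume 0 T := by
      rw [hF]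
      exact (hZi.const_mul _).sub hJi
    have hR : 2 * Real.pi * QC k z T - ∫ α : ℝ, G (gc k z) (α * I) * Qk k α T =
        ((T * L ^ (k ^ 2) : ℝ) : ℂ)⁻¹ * ∫ t in (0:ℝ)..T, F t := by
      rw [Qk_integral (gc_TF k z) hT1, QC_eq, ← hLdef, hF]
      simp only [FC]
      rw [intervalIntegral.integral_sub (hZi.const_mul _) hJi, intervalIntegral.integral_const_mul]
      ring
    have hb : 10 * Y ≤ T := hT10
    have h0b : (0:ℝ) ≤ 10 * Y := by linarith only [hY4]
    have i1 : IntervalIntegrable F volume 0 (10 * Y) := hFi.mono_set (by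
      rw [uIcc_of_le h0b, uIcc_of_le hT0.le]; exact Icc_subset_Icc_right hb)
    have i2 : IntervalIntegrable F volume (10 * Y) T := hFi.mono_set (by
      rw [uIcc_of_le hb, uIcc_of_le hT0.le]; exact Icc_subset_Icc_left h0b)
    have n1 : ‖∫ t in (0:ℝ)..(10 * Y), F t‖ ≤ D * (12 * Y) ^ (2 * k) * (10 * Y) := by
      have := intervalIntegral.norm_integral_le_of_norm_le_const (f := F) (a := 0) (b := 10 * Y)
        (C := D * (12 * Y) ^ (2 * k)) (fun t ht => by
          rw [uIoc_of_le h0b] at ht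
          rw [hF]
          refine (hb1 z L t hL4 ht.1.le hz4).trans ?_
          have h5 : (2 + t) ^ (2 * k) ≤ (12 * Y) ^ (2 * k) :=
            pow_le_pow_left₀ (by linarith only [ht.1, ht]) (by linarith only [ht.2, hY4, ht]) _
          calc C * Real.exp ((2 * k + 1) * |z.im|) * (2 + t) ^ (2 * k) * (1 + ‖z‖) ^ (2 * k)
              = D * (2 + t) ^ (2 * k) := by rw [hD]; ring
            _ ≤ D * (12 * Y) ^ (2 * k) := mul_le_mul_of_nonneg_left h5 hD0)
      rwa [sub_zero, abs_of_nonneg h0b] at this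
    have n2 : ‖∫ t in (10 * Y)..T, F t‖ ≤ |δ T| * T := by
      have := intervalIntegral.norm_integral_le_of_norm_le_const (f := F) (a := 10 * Y) (b := T)
        (C := |δ T|) (fun t ht => by
          rw [uIoc_of_le hb] at ht
          rw [hF]
          exact (hb2T t ht.1.le ht.2).trans (le_abs_self _))
      refine this.trans ?_
      rw [abs_of_nonneg (show (0:ℝ) ≤ T - 10 * Y by linarith only [hT10])]
      exact mul_le_mul_of_nonneg_left (by linarith only [h0b]) (abs_nonneg _)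
    have hLk : 1 ≤ L ^ (k ^ 2) := one_le_pow₀ (by linarith only [hL4])
    have h7 : (L ^ (k ^ 2))⁻¹ ≤ 1 := inv_le_one_of_one_le₀ hLk
    rw [hR, norm_mul, norm_inv, norm_real, Real.norm_eq_abs, abs_of_pos (by positivity), mul_inv,
      ← intervalIntegral.integral_add_adjacent_intervals i1 i2]
    have hYexp : Y ^ (2 * k + 1) / T = Real.exp (-(1 / (2 * (k:ℝ) + 2)) * L) := by
      rw [← hYT, hY, ← Real.exp_nat_mul, ← Real.exp_nat_mul, ← Real.exp_sub]
      congr 1
      push_cast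
      field_simp
      ring
    calc T⁻¹ * (L ^ (k ^ 2))⁻¹ * ‖(∫ t in (0:ℝ)..(10 * Y), F t) + ∫ t in (10 * Y)..T, F t‖
        ≤ T⁻¹ * 1 * (D * (12 * Y) ^ (2 * k) * (10 * Y) + |δ T| * T) := by
          gcongr
          exact (norm_add_le _ _).trans (add_le_add n1 n2)
      _ = D * 12 ^ (2 * k) * 10 * (Y ^ (2 * k + 1) / T) + |δ T| := by
          rw [mul_pow]
          field_simp
          ring
      _ = _ := by rw [hYexp]
  · have h1 : Tendsto (fun x : ℝ => Real.exp (-(1 / (2 * (k:ℝ) + 2)) * x)) atTop (𝓝 0) := by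
      have h2 : (0:ℝ) < 1 / (2 * (k:ℝ) + 2) := by positivity
      have h3 : Tendsto (fun x : ℝ => (1 / (2 * (k:ℝ) + 2)) * x) atTop atTop :=
        tendsto_id.const_mul_atTop h2
      refine (Real.tendsto_exp_neg_atTop_nhds_zero.comp h3).congr fun x => ?_
      show Real.exp (-(1 / (2 * (k:ℝ) + 2) * x)) = _
      rw [neg_mul]
    have h2 := (h1.comp Real.tendsto_log_atTop).const_mul (D * (12:ℝ) ^ (2 * k) * 10)
    have h3 := hδ.abs
    have h4 := h2.add h3
    simp only [mul_zero, abs_zero, add_zero] at h4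
    exact h4

/-- **Row c-6.** Proof: `key` times `(2π)⁻¹`. -/
theorem key' (k : ℕ) (z : ℂ) : Tendsto (fun T : ℝ => QC k z T - QP k (gc k z) T) atTop (𝓝 0) := by
  have h1 := (key k z).const_mul ((2 * Real.pi : ℂ)⁻¹)
  rw [mul_zero] at h1
  refine h1.congr fun T => ?_
  have hpi : (2 * Real.pi : ℂ) ≠ 0 := by
    have := Real.pi_ne_zero
    exact_mod_cast mul_ne_zero two_ne_zero this
  unfold QP
  rw [mul_sub, inv_mul_cancel_left₀ hpi]

end RCX
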