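import Pool.Agent.Lib.MP_069854_nt.RC.C6

namespace RCX
open MP069854 RGX
open Filter Topology Complex Set MeasureTheory Matrix
open scoped ComplexConjugate ContDiff

variable {k m : ℕ}

/-- **Row c-7.** Small test functions. Proof: `RT_meas k` (RGA): the RT-pairing is
`2π ∫ ρ h(v)`, so `(2π)⁻¹ * ` it has norm `≤ ∫ ρ ε = ε Jn`; compare `Qk` with `RT` by `QR_int hh k`
(RGB; take `D/(2π)`). -/
theorem QP_small {h : ℝ → ℂ} {A B ε : ℝ} (hh : TF h A B) (hε : ∀ u, ‖h u‖ ≤ ε) (k : ℕ) :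
    ∃ D C : ℝ, 0 ≤ D ∧ 0 ≤ C ∧ ∀ T : ℝ, Real.exp 1 ≤ T →
      ‖QP k h T‖ ≤ ε * Jn k T + D * (Eg k T + C * (sc k T)⁻¹) := by
  obtain ⟨D, C, hD, hC, hb⟩ := QR_int hh k
  have hπ : (0:ℝ) < 2 * Real.pi := by positivity
  refine ⟨D / (2 * Real.pi), C, by positivity, hC, fun T hT => ?_⟩
  have hexp1 : (2:ℝ) ≤ Real.exp 1 := by have := Real.add_one_le_exp (1:ℝ); linarith
  have hT1 : 1 < T := by linarith
  obtain ⟨ρ, v, hρ0, hρi, -, hJ, -, hR⟩ := RT_meas k hT1
  have h1 : ‖∫ ξ, (ρ ξ : ℂ) * h (v ξ)‖ ≤ ε * Jn k T := by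
    rw [hJ, mul_comm ε, ← integral_mul_const]
    refine norm_integral_le_of_norm_le (hρi.mul_const ε) (Eventually.of_forall fun ξ => ?_)
    rw [norm_mul, Complex.norm_real, Real.norm_of_nonneg (hρ0 ξ)]
    exact mul_le_mul_of_nonneg_left (hε _) (hρ0 ξ)
  have h2 := hb T hT
  rw [hR h A B hh] at h2
  have hc : ‖((2:ℂ) * Real.pi)‖ = 2 * Real.pi := by
    rw [show ((2:ℂ) * Real.pi) = ((2 * Real.pi : ℝ) : ℂ) by push_cast; ring, Complex.norm_real,
      Real.norm_of_nonneg hπ.le]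
  have h3 : ‖∫ α : ℝ, G h (α * I) * Qk k α T‖ ≤
      2 * Real.pi * (ε * Jn k T) + D * (Eg k T + C * (sc k T)⁻¹) := by
    have h4 := norm_sub_norm_le (∫ α : ℝ, G h (α * I) * Qk k α T)
      (2 * Real.pi * ∫ ξ, (ρ ξ : ℂ) * h (v ξ))
    rw [norm_mul, hc] at h4
    have h5 := mul_le_mul_of_nonneg_left h1 hπ.le
    linarith
  unfold QP
  rw [norm_mul, norm_inv, hc]
  calc (2 * Real.pi)⁻¹ * ‖∫ α : ℝ, G h (α * I) * Qk k α T‖ ≤
      (2 * Real.pi)⁻¹ * (2 * Real.pi * (ε * Jn k T) + D * (Eg k T + C * (sc k T)⁻¹)) :=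
        mul_le_mul_of_nonneg_left h3 (by positivity)
    _ = _ := by field_simp

/-- **Row c-7.** Linearity. Proof: `G` is linear in `g` and the products are integrable
(`Qk_integrable`), `T > 1`. -/
theorem QP_sub {g h : ℝ → ℂ} {A B : ℝ} (hg : TF g A B) (hh : TF h A B) {T : ℝ} (hT : 1 < T) :
    QP k (fun u => g u - h u) T = QP k g T - QP k h T := by
  have hG : ∀ w : ℂ, G (fun u => g u - h u) w = G g w - G h w := by
    intro w
    unfold G
    rw [← integral_sub (hg.integrable_mul_exp w) (hh.integrable_mul_exp w)]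
    refine integral_congr_ae (Eventually.of_forall fun u => ?_)
    simp only; ring
  unfold QP
  rw [← mul_sub, ← integral_sub (Qk_integrable (k := k) hg hT) (Qk_integrable (k := k) hh hT)]
  congr 1
  refine integral_congr_ae (Eventually.of_forall fun α => ?_)
  simp only [hG]; ring

/-- **Row c-7.** -/
theorem QP_sum (x c : Fin m → ℂ) {T : ℝ} (hT : 1 < T) :
    QP k (fun u => PC x c u * g00 k u) T = ∑ j, c j * QP k (gc k (x j)) T := by
  have hG : ∀ w : ℂ, G (fun u => PC x c u * g00 k u) w = ∑ j, c j * G (gc k (x j)) w := by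
    intro w
    unfold G
    have h1 : ∀ j : Fin m, c j * ∫ u : ℝ, gc k (x j) u * exp (u * w) =
        ∫ u : ℝ, c j * (gc k (x j) u * exp (u * w)) := fun j => (integral_const_mul _ _).symm
    simp only [h1]
    rw [← integral_finsetSum _ fun j _ => ((gc_TF k (x j)).integrable_mul_exp w).const_mul (c j)]
    refine integral_congr_ae (Eventually.of_forall fun u => ?_)
    simp only [PC, gc, Finset.sum_mul]
    refine Finset.sum_congr rfl fun j _ => ?_
    ring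
  unfold QP
  have h2 : ∀ j : Fin m, c j * ((2 * Real.pi : ℂ)⁻¹ * ∫ α : ℝ, G (gc k (x j)) (α * I) * Qk k α T) =
      (2 * Real.pi : ℂ)⁻¹ * ∫ α : ℝ, c j * (G (gc k (x j)) (α * I) * Qk k α T) := by
    intro j
    rw [integral_const_mul]; ring
  simp only [h2]
  rw [← Finset.mul_sum,
    ← integral_finsetSum _ fun j _ => (Qk_integrable (k := k) (gc_TF k (x j)) hT).const_mul (c j)]
  congr 1
  refine integral_congr_ae (Eventually.of_forall fun α => ?_)
  simp only [hG, Finset.sum_mul]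
  refine Finset.sum_congr rfl fun j _ => ?_
  ring

/-- **Row c-7.** -/
theorem PCg_TF (k : ℕ) (x c : Fin m → ℂ) : TF (fun u => PC x c u * g00 k u) (-1) (2 * k + 1) := by
  refine ⟨(PC_smooth x c).mul (g00_TF k).smooth, ?_⟩
  refine (closure_minimal ?_ (isClosed_tsupport (g00 k))).trans (g00_TF k).supp
  intro u hu
  exact subset_tsupport _ (right_ne_zero_of_mul (show PC x c u * g00 k u ≠ 0 from hu))

/-- **Row c-7.** Proof: `key'` and `QP_sum`. -/
theorem sum_key (k : ℕ) (x c : Fin m → ℂ) : Tendsto (fun T : ℝ => (∑ j, c j * QC k (x j) T) -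
    QP k (fun u => PC x c u * g00 k u) T) atTop (𝓝 0) := by
  have h1 : Tendsto (fun T : ℝ => ∑ j, c j * (QC k (x j) T - QP k (gc k (x j)) T)) atTop
      (𝓝 (∑ j, c j * 0)) := tendsto_finsetSum _ fun j _ => (key' k (x j)).const_mul (c j)
  have h2 : (∑ j, c j * (0 : ℂ)) = 0 := by simp
  rw [h2] at h1
  refine h1.congr' ?_
  filter_upwards [eventually_gt_atTop (1:ℝ)] with T hT
  rw [QP_sum x c hT, ← Finset.sum_sub_distrib]
  refine Finset.sum_congr rfl fun j _ => ?_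
  ring

/-- **Row c-7.** If the moment is bounded, so are all shifted ones. Proof: `key'`, and
`‖QP k g T‖ ≤ C` because `‖Qk k α T‖ ≤ C (1+|α|)^(k²+1)` for all `T ≥ T0`, all `α` (`growth` and
`Qk_norm`, as in `RGX.Q_bdd`, RGE) and `G_poly`. -/
theorem QC_bdd {B : ℝ} (h : ∀ᶠ T : ℝ in atTop, Jn k T ≤ B) (z : ℂ) :
    ∃ B' : ℝ, ∀ᶠ T : ℝ in atTop, ‖QC k z T‖ ≤ B' := by
  obtain ⟨C, T0, hC, hT0, hb⟩ := growth h
  have hg := gc_TF k z
  refine ⟨1 + ‖((2:ℂ) * Real.pi)⁻¹‖ *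
    ∫ α : ℝ, ‖G (gc k z) (α * I)‖ * (1 + |α|) ^ (k ^ 2 + 1) * C, ?_⟩
  have h1 : ∀ᶠ T : ℝ in atTop, ‖QC k z T - QP k (gc k z) T‖ ≤ 1 := by
    have h2 := (key' k z).norm
    rw [norm_zero] at h2
    exact (h2.eventually (gt_mem_nhds one_pos)).mono fun T hT => hT.le
  filter_upwards [h1, eventually_ge_atTop T0] with T h1 hT
  have hTe : Real.exp 1 ≤ T := hT0.trans hT
  have h3 : ‖QP k (gc k z) T‖ ≤ ‖((2:ℂ) * Real.pi)⁻¹‖ *
      ∫ α : ℝ, ‖G (gc k z) (α * I)‖ * (1 + |α|) ^ (k ^ 2 + 1) * C := by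
    unfold QP
    rw [norm_mul]
    refine mul_le_mul_of_nonneg_left ?_ (norm_nonneg _)
    refine norm_integral_le_of_norm_le ((G_poly hg (k ^ 2 + 1)).mul_const C)
      (Eventually.of_forall fun α => ?_)
    rw [norm_mul, mul_assoc]
    refine mul_le_mul_of_nonneg_left ?_ (norm_nonneg _)
    rw [mul_comm]
    exact (Qk_norm k α hTe).trans (hb T hT |α| (abs_nonneg α))
  have h4 := norm_sub_norm_le (QC k z T) (QP k (gc k z) T)
  linarith

end RCX
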