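import Pool.Agent.Lib.MP_069854_nt.RC.C7

namespace RCX
open MP069854 RGX
open Filter Topology Complex Set MeasureTheory Matrix
open scoped ComplexConjugate ContDiff

variable {k m : ℕ}

/-- **Row c-8a.** Positivity near the middle range. Proof: copy of `RGX.pos_near` (RGD); instead of
`PP_lip` use uniform continuity of `PC x c` on `[1, 2k]` (or a Lipschitz bound): `(PC x c ·).re ≥ d`
on `[2,2k-2]` gives `≥ d/2` on an `η`-neighbourhood; `ε = min 1 η`; case `k = 1` is vacuous. -/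
theorem pos_near' (hk : 1 ≤ k) (x c : Fin m → ℂ)
    (hD : ∀ u : ℝ, 2 ≤ u → u ≤ 2 * (k:ℝ) - 2 → 0 < (PC x c u).re) :
    ∃ ε c0 : ℝ, 0 < ε ∧ ε ≤ 1 ∧ 0 < c0 ∧
      ∀ u : ℝ, 2 - 3 * ε / 4 ≤ u → u ≤ 2 * (k:ℝ) - 2 + 3 * ε / 4 → c0 ≤ (PC x c u).re := by
  have hk' : (1:ℝ) ≤ k := by exact_mod_cast hk
  rcases Nat.lt_or_ge k 2 with h2 | h2
  · have hk1 : k = 1 := by omega
    refine ⟨1/2, 1, by norm_num, by norm_num, by norm_num, ?_⟩
    intro u h3 h4
    rw [hk1] at h4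
    norm_num at h4
    linarith
  · have hk2 : (2:ℝ) ≤ k := by exact_mod_cast h2
    have hcont : Continuous fun u : ℝ => (PC x c u).re := Complex.continuous_re.comp (PC_cont x c)
    obtain ⟨u0, hu0, hmin⟩ := isCompact_Icc.exists_isMinOn (s := Icc (2:ℝ) (2 * (k:ℝ) - 2))
      ⟨2, le_rfl, by linarith⟩ hcont.continuousOn
    obtain ⟨d, hd⟩ : ∃ d : ℝ, d = (PC x c u0).re := ⟨_, rfl⟩
    have hd0 : 0 < d := by rw [hd]; exact hD u0 hu0.1 hu0.2
    have hunif := (isCompact_Icc (a := (1:ℝ)) (b := 2 * (k:ℝ))).uniformContinuousOn_of_continuous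
      hcont.continuousOn
    rw [Metric.uniformContinuousOn_iff] at hunif
    obtain ⟨η, hη, hun⟩ := hunif (d / 2) (by positivity)
    refine ⟨min 1 η, d / 2, lt_min one_pos hη, min_le_left _ _, by positivity, ?_⟩
    obtain ⟨ε, hε⟩ : ∃ ε : ℝ, ε = min 1 η := ⟨_, rfl⟩
    rw [← hε]
    have hε0 : 0 < ε := by rw [hε]; exact lt_min one_pos hη
    have hε1 : ε ≤ 1 := by rw [hε]; exact min_le_left _ _
    have hεη : ε ≤ η := by rw [hε]; exact min_le_right _ _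
    intro u h3 h4
    have key : ∀ v : ℝ, v ∈ Icc (2:ℝ) (2 * (k:ℝ) - 2) → |u - v| < ε → d / 2 ≤ (PC x c u).re := by
      intro v hv huv
      have h5 : d ≤ (PC x c v).re := by rw [hd]; exact hmin hv
      have h6 := hun u ⟨by linarith, by linarith⟩ v ⟨by linarith [hv.1], by linarith [hv.2]⟩ (by
        rw [Real.dist_eq]
        linarith)
      rw [Real.dist_eq] at h6
      have h7 := (abs_lt.1 h6).1
      linarith
    rcases lt_or_ge u 2 with h5 | h5
    · exact key 2 ⟨le_rfl, by linarith⟩ (by rw [abs_lt]; constructor <;> linarith)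
    · rcases le_or_gt u (2 * (k:ℝ) - 2) with h6 | h6
      · exact key u ⟨h5, h6⟩ (by rw [sub_self, abs_zero]; exact hε0)
      · exact key (2 * (k:ℝ) - 2) ⟨by linarith, le_rfl⟩ (by rw [abs_lt]; constructor <;> linarith)

/-- **Row c-8a.** Positivity inequality for a test function. Proof: copy of `RGX.pos_ineq` (RGA) with
`PP x c` replaced by the test function `g`: `RT_meas` third property for `g` gives
`(2π)⁻¹ ∫ G g RT = ∫ ρ g(v)`. -/
theorem pos_ineq' {g : ℝ → ℂ} {φ : ℝ → ℝ} {A B A' B' : ℝ} (hg : TF g A' B')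
    (hφ : TF (fun u => (φ u : ℂ)) A B) {c0 S : ℝ}
    (hD : ∀ u, c0 * φ u - S * (1 - φ u) ≤ (g u).re) {T : ℝ} (hT : 1 < T) :
    c0 * Jn k T - (S + c0) * (Jn k T - (2 * Real.pi)⁻¹ *
      (∫ β : ℝ, G (fun u => (φ u : ℂ)) (β * I) * RT k β T).re) ≤
      ((2 * Real.pi : ℂ)⁻¹ * ∫ β : ℝ, G g (β * I) * RT k β T).re := by
  obtain ⟨ρ, v, hρ0, hρi, hv, h0, h1, h2⟩ := RT_meas k hT
  obtain ⟨hi, hoff⟩ := off_mass hφ hρi hv h0 h2
  rw [hoff, h2 g A' B' hg, inv_mul_cancel_left₀ twopi_ne, h0]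
  have hi2 : Integrable fun ξ => ρ ξ * (1 - φ (v ξ)) := by
    refine (hρi.sub hi).congr (Eventually.of_forall fun ξ => ?_)
    simp only [Pi.sub_apply]; ring
  have hP : Integrable fun ξ => (ρ ξ : ℂ) * g (v ξ) := by
    obtain ⟨C, hC⟩ := hg.hcs.exists_bound_of_continuous hg.cont
    exact hρi.ofReal.mul_bdd (c := C) (hg.cont.comp hv).aestronglyMeasurable
      (Eventually.of_forall fun ξ => hC _)
  have e1 : (∫ ξ, (ρ ξ : ℂ) * g (v ξ)).re = ∫ ξ, ρ ξ * (g (v ξ)).re := by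
    rw [← RCLike.re_eq_complex_re, ← integral_re hP]
    refine integral_congr_ae (Eventually.of_forall fun ξ => ?_)
    simp only [RCLike.re_eq_complex_re, re_ofReal_mul]
  have hPr : Integrable fun ξ => ρ ξ * (g (v ξ)).re := by
    refine hP.re.congr (Eventually.of_forall fun ξ => ?_)
    simp only [RCLike.re_eq_complex_re, re_ofReal_mul]
  rw [e1, ← integral_const_mul, ← integral_const_mul, ← integral_sub (hρi.const_mul _) (hi2.const_mul _)]
  refine integral_mono ((hρi.const_mul _).sub (hi2.const_mul _)) hPr fun ξ => ?_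
  have := mul_le_mul_of_nonneg_left (hD (v ξ)) (hρ0 ξ)
  nlinarith [this]

/-- **Row c-8b.** Main inequality for complex shifts. Proof: copy of `RGX.main_ineq` (RGD) with
`g u = PC x c u * g00 k u` (`PCg_TF`): on the support of `rhoM k ε` (`rhoM_ne`) `g00 = 1` (`g00_one`)
so `(g u).re = (PC x c u).re ≥ c0`, everywhere `-S ≤ (g u).re` with `S` a bound of `‖g‖`
(`TF.bounded`); `pos_ineq'`; `off_rho`, `off_RT`, `QR_int` for `g`; and `sum_key` (the extra `o(1)` is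
`≤ 1` eventually). -/
theorem main_ineq' (hk : 1 ≤ k) (x c : Fin m → ℂ)
    (hD : ∀ u : ℝ, 2 ≤ u → u ≤ 2 * (k:ℝ) - 2 → 0 < (PC x c u).re) :
    ∃ C : ℝ, 0 ≤ C ∧ ∀ᶠ T : ℝ in atTop,
      Jn k T ≤ C * (1 + Eg k T + max 0 (∑ j, c j * QC k (x j) T).re) := by
  obtain ⟨ε, c0, hε, hε1, hc0, hpos⟩ := pos_near' hk x c hD
  have hk' : (1:ℝ) ≤ k := by exact_mod_cast hk
  have t1 := rho_TF hk hε hε1
  obtain ⟨ℓ, hℓ⟩ := off_rho hk hε hε1
  obtain ⟨D, C1, hD0, hC1, hoff⟩ := off_RT t1 k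
  have tg : TF (fun u => PC x c u * g00 k u) (-1) (2 * k + 1) := PCg_TF k x c
  obtain ⟨S, hS0, hS⟩ := tg.bounded
  obtain ⟨D2, C2, hD2, hC2, hQR⟩ := QR_int tg k
  have hrange : ∀ u, c0 * rhoM k ε u - S * (1 - rhoM k ε u) ≤ (PC x c u * g00 k u).re := by
    intro u
    have h0 := rho_range k ε u
    by_cases h : rhoM k ε u = 0
    · rw [h, mul_zero, sub_zero, mul_one, zero_sub]
      exact (abs_le.1 ((Complex.abs_re_le_norm _).trans (hS u))).1
    · have h1 := rhoM_ne hε h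
      have h2 := hpos u h1.1 h1.2
      have h3 : 0 ≤ S * (1 - rhoM k ε u) := mul_nonneg hS0 (by linarith)
      rw [g00_one k (by linarith [h1.1]) (by linarith [h1.2]), mul_one]
      nlinarith
  have hsum := sum_key k x c
  have hsum1 : ∀ᶠ T : ℝ in atTop, ‖(∑ j, c j * QC k (x j) T) -
      QP k (fun u => PC x c u * g00 k u) T‖ ≤ 1 := by
    have h1 := hsum.norm
    rw [norm_zero] at h1
    filter_upwards [h1.eventually (gt_mem_nhds (show (0:ℝ) < 1 by norm_num))] with T hT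
    exact hT.le
  refine ⟨c0⁻¹ * ((S + c0) * (|ℓ| + 1 + D * (1 + C1)) + (1 + D2 * (1 + C2)) + 1), by positivity, ?_⟩
  have hsc := (sc_atTop k).eventually (eventually_ge_atTop (1:ℝ))
  filter_upwards [eventually_ge_atTop (Real.exp 1), hsc, hsum1,
    hℓ.eventually (gt_mem_nhds (show ℓ < |ℓ| + 1 by linarith [le_abs_self ℓ]))] with T hT hs hs1 hl
  have hexp1 : (2:ℝ) ≤ Real.exp 1 := by have := Real.add_one_le_exp (1:ℝ); linarith
  have hE := Eg_nonneg k hT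
  have hsi : (sc k T)⁻¹ ≤ 1 := inv_le_one_of_one_le₀ hs
  have hsi0 : 0 ≤ (sc k T)⁻¹ := by positivity
  have p1 := pos_ineq' (k := k) tg t1 hrange (T := T) (by linarith)
  have p2 := hoff T hT
  set X := Jn k T with hX
  set off := X - (2 * Real.pi)⁻¹ *
      (∫ β : ℝ, G (fun u => ((rhoM k ε u : ℝ) : ℂ)) (β * I) * RT k β T).re with hoffd
  have p3 : off ≤ (|ℓ| + 1 + D * (1 + C1)) * (1 + Eg k T) := by
    have e1 : C1 * (sc k T)⁻¹ ≤ C1 := mul_le_of_le_one_right hC1 hsi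
    have e2 : D * (Eg k T + C1 * (sc k T)⁻¹) ≤ D * (Eg k T + C1) := by gcongr
    have e3 : D * (Eg k T + C1) ≤ D * (1 + C1) * (1 + Eg k T) := by
      have : 0 ≤ D * (1 + C1 * Eg k T) := by positivity
      nlinarith
    have e4 : 0 ≤ (|ℓ| + 1) * Eg k T := by positivity
    nlinarith
  have p4 : ((2 * Real.pi : ℂ)⁻¹ * ∫ β : ℝ, G (fun u => PC x c u * g00 k u) (β * I) * RT k β T).re ≤
      max 0 (∑ j, c j * QC k (x j) T).re + (1 + D2 * (1 + C2)) * (1 + Eg k T) := by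
    have e0 : ‖QP k (fun u => PC x c u * g00 k u) T -
        (2 * Real.pi : ℂ)⁻¹ * ∫ β : ℝ, G (fun u => PC x c u * g00 k u) (β * I) * RT k β T‖ ≤
        D2 * (Eg k T + C2 * (sc k T)⁻¹) := by
      unfold QP
      rw [← mul_sub, norm_mul]
      have e : ‖(2 * Real.pi : ℂ)⁻¹‖ = (2 * Real.pi)⁻¹ := by
        rw [norm_inv, norm_mul, Complex.norm_real, Complex.norm_ofNat,
          Real.norm_of_nonneg Real.pi_pos.le]
      rw [e]
      have e' : (2 * Real.pi)⁻¹ ≤ 1 := inv_le_one_of_one_le₀ (by linarith [Real.pi_gt_three])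
      exact (mul_le_of_le_one_left (norm_nonneg _) e').trans (hQR T hT)
    have e2 := (abs_le.1 ((Complex.abs_re_le_norm _).trans e0)).1
    have e2' := (abs_le.1 ((Complex.abs_re_le_norm _).trans hs1)).1
    rw [sub_re] at e2 e2'
    have e3 : C2 * (sc k T)⁻¹ ≤ C2 := mul_le_of_le_one_right hC2 hsi
    have e4 : D2 * (Eg k T + C2 * (sc k T)⁻¹) ≤ D2 * (Eg k T + C2) := by gcongr
    have e5 : D2 * (Eg k T + C2) ≤ D2 * (1 + C2) * (1 + Eg k T) := by
      have : 0 ≤ D2 * (1 + C2 * Eg k T) := by positivity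
      nlinarith
    have e6 := le_max_right 0 (∑ j, c j * QC k (x j) T).re
    have e7 : (1 + D2 * (1 + C2)) * (1 + Eg k T) =
      1 + Eg k T + D2 * (1 + C2) * (1 + Eg k T) := by ring
    rw [e7]
    linarith
  set mx := max 0 (∑ j, c j * QC k (x j) T).re with hmx
  have hmx0 : 0 ≤ mx := le_max_left _ _
  have p5 : c0 * X ≤ ((S + c0) * (|ℓ| + 1 + D * (1 + C1)) + (1 + D2 * (1 + C2)) + 1) *
      (1 + Eg k T + mx) := by
    have e1 : (S + c0) * off ≤ (S + c0) * ((|ℓ| + 1 + D * (1 + C1)) * (1 + Eg k T)) := by gcongr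
    have e2 : 0 ≤ (S + c0) * (|ℓ| + 1 + D * (1 + C1)) := by positivity
    have e3 : 0 ≤ (1 + D2 * (1 + C2)) := by positivity
    have e4 : 0 ≤ (S + c0) * (|ℓ| + 1 + D * (1 + C1)) * mx := by positivity
    have e5 : 0 ≤ (1 + D2 * (1 + C2)) * mx := by positivity
    nlinarith
  rw [mul_assoc, ← div_le_iff₀' (by positivity), div_inv_eq_mul, mul_comm]
  exact p5

/-- **Row c-8b.** Copy of `RGX.bdd_of_pos` (RGE). -/
theorem bdd_of_pos' (hk : 1 ≤ k) (x c : Fin m → ℂ)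
    (hD : ∀ u : ℝ, 2 ≤ u → u ≤ 2 * (k:ℝ) - 2 → 0 < (PC x c u).re)
    (hB : ∃ B : ℝ, ∀ᶠ T : ℝ in atTop, (∑ j, c j * QC k (x j) T).re ≤ B) :
    ∃ B : ℝ, ∀ᶠ T : ℝ in atTop, Jn k T ≤ B := by
  obtain ⟨C, hC, h⟩ := main_ineq' hk x c hD
  obtain ⟨B, hB⟩ := hB
  refine bdd_of_edge k (C := C * (1 + |B|)) (by positivity) ?_
  filter_upwards [h, hB, eventually_ge_atTop (Real.exp 1)] with T h1 h2 hT
  have hE := Eg_nonneg k hT
  have h3 : max 0 (∑ j, c j * QC k (x j) T).re ≤ |B| :=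
    max_le (abs_nonneg B) (h2.trans (le_abs_self B))
  calc Jn k T ≤ C * (1 + Eg k T + max 0 (∑ j, c j * QC k (x j) T).re) := h1
    _ ≤ C * (1 + Eg k T + |B|) := by gcongr
    _ ≤ C * ((1 + |B|) * (1 + Eg k T)) := by
        gcongr
        nlinarith [mul_nonneg (abs_nonneg B) hE]
    _ = _ := by ring

/-- **Row c-8b.** Copy of `RGX.bdd_iff` (RGE). -/
theorem bdd_iff' (hk : 1 ≤ k) {J : Set ℂ} (hJ : DC k J) :
    (∃ B : ℝ, ∀ᶠ T : ℝ in atTop, Jn k T ≤ B) ↔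
      ∀ x ∈ J, ∃ B : ℝ, ∀ᶠ T : ℝ in atTop, ‖QC k x T‖ ≤ B := by
  constructor
  · rintro ⟨B, hB⟩ x _
    exact QC_bdd hB x
  · intro h
    obtain ⟨m, x, c, hx, hP⟩ := hJ 0 (1 / 2) (by norm_num)
    refine bdd_of_pos' hk x c (fun u h1 h2 => ?_) ?_
    · have h3 := hP u h1 h2
      have e : exp (-(I * (0 : ℂ) * (u : ℂ))) = 1 := by simp
      rw [e] at h3
      have h4 := (abs_le.1 ((Complex.abs_re_le_norm _).trans h3)).2
      rw [sub_re, one_re] at h4
      linarith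
    · choose B hB using fun j => h (x j) (hx j)
      refine ⟨∑ j, ‖c j‖ * B j, ?_⟩
      have hall : ∀ᶠ T : ℝ in atTop, ∀ j, ‖QC k (x j) T‖ ≤ B j := eventually_all.2 hB
      filter_upwards [hall] with T hT
      refine (Complex.re_le_norm _).trans ((norm_sum_le _ _).trans (Finset.sum_le_sum fun j _ => ?_))
      rw [norm_mul]
      exact mul_le_mul_of_nonneg_left (hT j) (norm_nonneg _)

end RCX
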