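import Pool.Agent.Lib.MP_069854_nt.RC.C8

namespace RCX
open MP069854 RGX
open Filter Topology Complex Set MeasureTheory Matrix
open scoped ComplexConjugate ContDiff

variable {k m : ℕ}

theorem c9a_exp_smooth (y : ℂ) : ContDiff ℝ ∞ fun u : ℝ => exp (-(I * y * u)) := by
  have h1 : ContDiff ℝ ∞ fun u : ℝ => (u : ℂ) := Complex.ofRealCLM.contDiff
  exact ((contDiff_const.mul h1).neg).cexp

/-- **Row c-9a.** Copy of `RGX.near` (RGE), with uniform continuity (or a Lipschitz bound) for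
`u ↦ exp(-(I y u)) - PC x c u` on `[1, 2k]`. -/
theorem near' (hk : 1 ≤ k) (x c : Fin m → ℂ) (y : ℂ) {ε : ℝ} (hε : 0 < ε)
    (hP : ∀ u : ℝ, 2 ≤ u → u ≤ 2 * (k:ℝ) - 2 → ‖exp (-(I * y * u)) - PC x c u‖ ≤ ε / 2) :
    ∃ δ : ℝ, 0 < δ ∧ δ ≤ 1 ∧ ∀ u : ℝ, 2 - 3 * δ / 4 ≤ u → u ≤ 2 * (k:ℝ) - 2 + 3 * δ / 4 →
      ‖exp (-(I * y * u)) - PC x c u‖ ≤ ε := by
  have hk' : (1:ℝ) ≤ k := by exact_mod_cast hk
  rcases Nat.lt_or_ge k 2 with h2 | h2
  · have hk1 : k = 1 := by omega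
    refine ⟨1/2, by norm_num, by norm_num, ?_⟩
    intro u h3 h4
    rw [hk1] at h4
    norm_num at h4
    linarith
  · have hk2 : (2:ℝ) ≤ k := by exact_mod_cast h2
    have hcont : Continuous fun u : ℝ => exp (-(I * y * u)) - PC x c u :=
      (c9a_exp_smooth y).continuous.sub (PC_cont x c)
    have huc : UniformContinuousOn (fun u : ℝ => exp (-(I * y * u)) - PC x c u)
        (Set.Icc 1 (2 * (k:ℝ))) :=
      isCompact_Icc.uniformContinuousOn_of_continuous hcont.continuousOn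
    obtain ⟨δ0, hδ0, hd⟩ := Metric.uniformContinuousOn_iff.1 huc (ε / 2) (by positivity)
    have hm0 : 0 < min 1 δ0 := lt_min one_pos hδ0
    have hm1 : min 1 δ0 ≤ 1 := min_le_left _ _
    have hm2 : min 1 δ0 ≤ δ0 := min_le_right _ _
    refine ⟨min 1 δ0, hm0, hm1, ?_⟩
    intro u h3 h4
    have key : ∀ v : ℝ, 2 ≤ v → v ≤ 2 * (k:ℝ) - 2 → |u - v| ≤ 3 * min 1 δ0 / 4 →
        ‖exp (-(I * y * u)) - PC x c u‖ ≤ ε := by
      intro v hv1 hv2 huv
      have h5 := hP v hv1 hv2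
      have h6 := hd u ⟨by linarith, by linarith⟩ v ⟨by linarith, by linarith⟩
        (by rw [Real.dist_eq]; linarith)
      rw [dist_eq_norm] at h6
      have h7 := norm_add_le ((exp (-(I * y * u)) - PC x c u) - (exp (-(I * y * v)) - PC x c v))
        (exp (-(I * y * v)) - PC x c v)
      rw [sub_add_cancel] at h7
      linarith
    rcases lt_or_ge u 2 with h5 | h5
    · exact key 2 le_rfl (by linarith) (by rw [abs_le]; constructor <;> linarith)
    · rcases le_or_gt u (2 * (k:ℝ) - 2) with h6 | h6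
      · exact key u h5 h6 (by rw [sub_self, abs_zero]; positivity)
      · exact key (2 * (k:ℝ) - 2) (by linarith) le_rfl (by rw [abs_le]; constructor <;> linarith)

/-- the part of the difference off the middle range -/
noncomputable def gq (k : ℕ) (x c : Fin m → ℂ) (y : ℂ) (δ : ℝ) (u : ℝ) : ℂ :=
  (exp (-(I * y * u)) - PC x c u) * ((1 - ((rhoM k δ u : ℝ) : ℂ)) * ((pl k u : ℝ) : ℂ))

/-- **Row c-9a.** Copy of `RGX.gp_TF`. -/
theorem gq_TF (x c : Fin m → ℂ) (y : ℂ) (δ : ℝ) : TF (gq k x c y δ) (-1) (2 * k + 1) := by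
  refine ⟨?_, ?_⟩
  · exact ((c9a_exp_smooth y).sub (PC_smooth x c)).mul
      ((contDiff_const.sub (rhoM_smooth k δ)).mul (pl_TF k).smooth)
  · refine closure_minimal ?_ isClosed_Icc
    intro u hu
    by_contra hcon
    apply hu
    have a0 : ((pl k u : ℝ) : ℂ) = 0 :=
      image_eq_zero_of_notMem_tsupport (f := fun u => ((pl k u : ℝ) : ℂ)) fun h => hcon ((pl_TF k).supp h)
    unfold gq
    rw [a0, mul_zero, mul_zero]

/-- **Row c-9a.** Copy of `RGX.gp_supp`. -/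
theorem gq_supp (x c : Fin m → ℂ) (y : ℂ) {δ : ℝ} (hδ : 0 < δ) :
    ∀ u ∈ tsupport (gq k x c y δ), u < 2 ∨ 2 * (k:ℝ) - 2 < u := by
  intro u hu
  by_contra hcon
  rw [not_or, not_lt, not_lt] at hcon
  have hz : gq k x c y δ =ᶠ[𝓝 u] 0 := by
    filter_upwards [(lt_mem_nhds (show 2 - δ / 2 < u by linarith)),
      (gt_mem_nhds (show u < 2 * (k:ℝ) - 2 + δ / 2 by linarith))] with v h1 h2
    simp only [gq, Pi.zero_apply]
    rw [rhoM_one hδ h1.le h2.le]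
    simp
  exact notMem_tsupport_iff_eventuallyEq.2 hz hu

/-- **Row c-9a.** The rest is small everywhere. Proof: `g00 k u = pl k u` (as complex numbers; see
`pl_eq`, `gal k 0 = g00`), so the left side is the norm of
`(exp(..) - PC) * (rhoM * pl)`; if `rhoM ≠ 0`, `rhoM_ne` gives the range and
`‖..‖ ≤ ε * 1 * 1` (`rho_range`, `pl_eq`). -/
theorem gq_diff (x c : Fin m → ℂ) (y : ℂ) {δ ε : ℝ} (hδ : 0 < δ) (hε : 0 ≤ ε)
    (hP : ∀ u : ℝ, 2 - 3 * δ / 4 ≤ u → u ≤ 2 * (k:ℝ) - 2 + 3 * δ / 4 →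
      ‖exp (-(I * y * u)) - PC x c u‖ ≤ ε) (u : ℝ) :
    ‖gc k y u - PC x c u * g00 k u - gq k x c y δ u‖ ≤ ε := by
  have hr := rho_range k δ u
  have hp := (pl_eq k u).2
  have hg : g00 k u = ((pl k u : ℝ) : ℂ) := by
    rw [(pl_eq k u).1, ← gc_real, ofReal_zero]
    unfold gc
    simp
  have e : gc k y u - PC x c u * g00 k u - gq k x c y δ u = (exp (-(I * y * u)) - PC x c u) *
      ((rhoM k δ u * pl k u : ℝ) : ℂ) := by
    unfold gq gc
    rw [hg]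
    push_cast
    ring
  have h0 : 0 ≤ rhoM k δ u * pl k u := mul_nonneg hr.1 hp.1
  rw [e, norm_mul, Complex.norm_real, Real.norm_of_nonneg h0]
  by_cases hz : rhoM k δ u = 0
  · rw [hz, zero_mul, mul_zero]
    exact hε
  · have h2 := rhoM_ne hδ hz
    have h3 := hP u h2.1 h2.2
    have h4 : rhoM k δ u * pl k u ≤ 1 := mul_le_one₀ hr.2 hp.1 hp.2
    calc ‖exp (-(I * y * u)) - PC x c u‖ * (rhoM k δ u * pl k u) ≤ ε * 1 :=
          mul_le_mul h3 h4 h0 hε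
      _ = ε := mul_one ε

theorem c9b_TF_sub {g h : ℝ → ℂ} {A B : ℝ} (hg : TF g A B) (hh : TF h A B) :
    TF (fun u => g u - h u) A B := by
  refine ⟨hg.smooth.sub hh.smooth, ?_⟩
  refine closure_minimal ?_ isClosed_Icc
  intro u hu
  by_contra hcon
  apply hu
  have a0 : g u = 0 := image_eq_zero_of_notMem_tsupport fun h => hcon (hg.supp h)
  have a1 : h u = 0 := image_eq_zero_of_notMem_tsupport fun h' => hcon (hh.supp h')
  show g u - h u = 0
  rw [a0, a1, sub_zero]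

/-- **Row c-9b.** Approximation by the shifts in `J` along a filter with small edges. Proof: as
`RGX.approx_l` (RGE) but simpler: with `h u = gc k y u - PC x c u * g00 k u - gq k x c y δ u`
(test function, `‖h‖ ≤ ε`), `QP_small`, `QP_sub` twice, `key'` for `y`, `sum_key`. The fourth
item: for `0 ≤ u ≤ 2k`, `g00 k u = 1`, from `gq_diff`. -/
theorem approx_l' (hk : 1 ≤ k) {l : Filter ℝ} (hl : l ≤ atTop) (hE : Tendsto (Eg k) l (𝓝 0)) {B : ℝ}
    (hB : ∀ᶠ T : ℝ in l, Jn k T ≤ B) {J : Set ℂ} (hJ : DC k J) (y : ℂ) {ε : ℝ} (hε : 0 < ε) :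
    ∃ (m : ℕ) (x c : Fin m → ℂ) (g : ℝ → ℂ), (∀ j, x j ∈ J) ∧ TF g (-1) (2 * k + 1) ∧
      (∀ u ∈ tsupport g, u < 2 ∨ 2 * (k:ℝ) - 2 < u) ∧
      (∀ u : ℝ, 0 ≤ u → u ≤ 2 * (k:ℝ) → ‖exp (-(I * y * u)) - PC x c u - g u‖ ≤ ε) ∧
      ∀ᶠ T : ℝ in l, ‖QC k y T - (∑ j, c j * QC k (x j) T) -
        (2 * Real.pi : ℂ)⁻¹ * ∫ α : ℝ, G g (α * I) * Qk k α T‖ ≤ ε * (B + 1) := by
  obtain ⟨m, x, c, hx, hP0⟩ := hJ y (ε / 2) (by positivity)
  obtain ⟨δ, hδ, hδ1, hP⟩ := near' hk x c y hε hP0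
  have hD := gq_diff (k := k) x c y hδ hε.le hP
  set g := gq k x c y δ with hg
  have tg : TF g (-1) (2 * k + 1) := gq_TF x c y δ
  refine ⟨m, x, c, g, hx, tg, gq_supp x c y hδ, fun u h1 h2 => ?_, ?_⟩
  · have h3 := hD u
    have h4 : g00 k u = 1 := g00_one k h1 h2
    rw [gc, h4, mul_one, mul_one] at h3
    exact h3
  have t1 : TF (gc k y) (-1) (2 * k + 1) := gc_TF k y
  have t2 : TF (fun u => PC x c u * g00 k u) (-1) (2 * k + 1) := PCg_TF k x c
  have t3 : TF (fun u => gc k y u - PC x c u * g00 k u) (-1) (2 * k + 1) := c9b_TF_sub t1 t2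
  have t4 : TF (fun u => gc k y u - PC x c u * g00 k u - g u) (-1) (2 * k + 1) := c9b_TF_sub t3 tg
  obtain ⟨D, C, hD0, hC0, hsm⟩ := QP_small t4 hD k
  have hsc : Tendsto (fun T => (sc k T)⁻¹) l (𝓝 0) := (tendsto_inv_atTop_zero.comp (sc_atTop k)).mono_left hl
  have herr : Tendsto (fun T : ℝ => ‖QC k y T - QP k (gc k y) T‖ +
      ‖(∑ j, c j * QC k (x j) T) - QP k (fun u => PC x c u * g00 k u) T‖ +
      D * (Eg k T + C * (sc k T)⁻¹)) l (𝓝 0) := by
    have h1 := ((key' k y).mono_left hl).norm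
    have h2 := ((sum_key k x c).mono_left hl).norm
    have h3 := (hE.add (hsc.const_mul C)).const_mul D
    have h4 := (h1.add h2).add h3
    simpa using h4
  filter_upwards [hB, hl (eventually_ge_atTop (Real.exp 1)), herr.eventually (gt_mem_nhds hε)]
    with T h1 hT h2
  have hexp1 : (2:ℝ) ≤ Real.exp 1 := by have := Real.add_one_le_exp (1:ℝ); linarith
  have hT1 : 1 < T := by linarith
  have a1 := hsm T hT
  rw [QP_sub t3 tg hT1, QP_sub t1 t2 hT1] at a1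
  have e : QC k y T - (∑ j, c j * QC k (x j) T) -
        (2 * Real.pi : ℂ)⁻¹ * (∫ α : ℝ, G g (α * I) * Qk k α T) =
      (QC k y T - QP k (gc k y) T) -
      ((∑ j, c j * QC k (x j) T) - QP k (fun u => PC x c u * g00 k u) T) +
      (QP k (gc k y) T - QP k (fun u => PC x c u * g00 k u) T - QP k g T) := by
    unfold QP
    ring
  rw [e]
  refine (norm_add_le _ _).trans ?_
  have a2 := norm_sub_le (QC k y T - QP k (gc k y) T)
    ((∑ j, c j * QC k (x j) T) - QP k (fun u => PC x c u * g00 k u) T)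
  have a7 : ε * Jn k T ≤ ε * B := by gcongr
  linarith

/-- **Row c-9b.** Copy of `RGX.conv_l` (RGE). -/
theorem conv_l' (hk : 1 ≤ k) {l : Filter ℝ} [l.NeBot] (hl : l ≤ atTop) (hE : Tendsto (Eg k) l (𝓝 0)) {B : ℝ}
    (hB0 : 0 ≤ B) (hB : ∀ᶠ T : ℝ in l, Jn k T ≤ B) {J : Set ℂ} (hD : DC k J)
    (hJ : ∀ x ∈ J, ∃ z : ℂ, Tendsto (fun T => QC k x T) l (𝓝 z)) (y : ℂ) :
    ∃ z : ℂ, Tendsto (fun T => QC k y T) l (𝓝 z) := by
  refine cauchy_map_iff_exists_tendsto.1 ?_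
  rw [Metric.cauchy_iff]
  refine ⟨inferInstance, fun ε hε => ?_⟩
  set e := ε / (8 * (B + 1)) with he
  have he0 : 0 < e := by positivity
  obtain ⟨m, x, c, g, hx, tg, hs, -, hT⟩ := approx_l' hk hl hE hB hD y he0
  choose z hz using fun j => hJ (x j) (hx j)
  obtain ⟨ℓ, hℓ⟩ := main0 hk tg.smooth tg.hcs hs
  have hlim : Tendsto (fun T : ℝ => (∑ j, c j * QC k (x j) T) +
      (2 * Real.pi : ℂ)⁻¹ * ∫ α : ℝ, G g (α * I) * Qk k α T) l
      (𝓝 ((∑ j, c j * z j) + (2 * Real.pi : ℂ)⁻¹ * ℓ)) :=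
    (tendsto_finsetSum _ fun j _ => (hz j).const_mul (c j)).add ((hℓ.mono_left hl).const_mul _)
  set w : ℂ := (∑ j, c j * z j) + (2 * Real.pi : ℂ)⁻¹ * ℓ with hw
  have hev : ∀ᶠ T : ℝ in l, QC k y T ∈ Metric.ball w (ε / 2) := by
    filter_upwards [hT, (Metric.tendsto_nhds.1 hlim) (ε / 4) (by positivity)] with T h1 h3
    rw [Metric.mem_ball, dist_eq_norm]
    rw [dist_eq_norm] at h3
    rw [sub_sub] at h1
    have h4 : ‖QC k y T - w‖ ≤ ‖QC k y T - ((∑ j, c j * QC k (x j) T) +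
        (2 * Real.pi : ℂ)⁻¹ * ∫ α : ℝ, G g (α * I) * Qk k α T)‖ +
        ‖((∑ j, c j * QC k (x j) T) +
        (2 * Real.pi : ℂ)⁻¹ * ∫ α : ℝ, G g (α * I) * Qk k α T) - w‖ :=
      norm_sub_le_norm_sub_add_norm_sub _ _ _
    have h5 : e * (B + 1) = ε / 8 := by rw [he]; field_simp
    linarith
  refine ⟨_, hev, fun a ha b hb => ?_⟩
  have a1 : dist a w < ε / 2 := ha
  have a2 : dist b w < ε / 2 := hb
  have a3 := dist_triangle_right a b w
  linarith

end RCX
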